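import Mathlib
import Pool.Agent.Lib.SSR.C3
import Pool.Agent.Lib.H41D.P6
import Pool.Agent.Lib.H41D.P7
import Pool.Agent.Lib.H41D.P8
import Pool.Agent.Lib.H55P.I1
import Pool.Agent.Lib.H55P.T13
import Pool.Agent.Lib.H55K.D1

/-! # SSU, A1: the L-series of a cyclic step as a product; p inert in F: sizes of relative norms -/

open NumberField IsDedekindDomain

namespace SSU

open H55N H55P SSR
open H55B (g)
open H41D (vN vNc)

theorem pch_norm_le {K : Type} [Field K] [NumberField K] {p : ℕ} (hp : p ≠ 0) {f : Ideal (𝓞 K)} {R : Finset (HeightOneSpectrum (𝓞 K))}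
    {χ : Ideal (𝓞 K) →*₀ ℂ} (h : PCh p f R χ) (a : Ideal (𝓞 K)) : ‖χ a‖ ≤ 1 := by
  by_cases ha : a = ⊥
  · have : χ ⊥ = 0 := χ.map_zero
    rw [ha, this, norm_zero]
    exact zero_le_one
  · by_cases hc : IsCoprime a (f * ∏ v ∈ R, v.asIdeal)
    · exact (Complex.norm_eq_one_of_pow_eq_one (h.val a ha hc) hp).le
    · rw [h.zero a hc, norm_zero]
      exact zero_le_one

variable {F : Type} [Field F] [NumberField F] [IQ F]

/-- The L-series over K' is the product of the twisted L-series over K (copy of H55P.step_prod). -/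
theorem step_prodC (K K' : Type) [Field K] [NumberField K] [Algebra F K] [Field K'] [NumberField K']
    [Algebra F K'] [Algebra K K'] [IsScalarTower F K K'] {M : Ideal (𝓞 F)} {ψ : Ideal (𝓞 F) →*₀ 𝓞 F}
    (h : IsHecke M ψ) (p : ℕ) (hp : p.Prime)
    (χ : Ideal (𝓞 K) →*₀ ℂ) (hf : ∀ (j : ℕ) (a : Ideal (𝓞 K)), ‖chp χ j a‖ ≤ 1) (hχ : SplitP K K' p χ)
    (Λ₁ : ℂ → ℂ) (hs1 : ∀ s : ℂ, 3 / 2 < s.re → HasSum (tm (PsiP K ψ) s) (Λ₁ s))
    (Λ : ℕ → ℂ → ℂ) (hΛ : ∀ j s, 3 / 2 < s.re →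
      HasSum (tm (PsiP K ψ * chp χ j : Ideal (𝓞 K) →*₀ ℂ) s) (Λ j s)) (s : ℂ) (hs : 3 / 2 < s.re) :
    HasSum (tm (PsiP K' ψ) s) (Λ₁ s * ∏ j ∈ Finset.range (p - 1), Λ j s) := by
  have hb : ∀ j, ∀ a : Ideal (𝓞 K),
      ‖(PsiP K ψ * chp χ j : Ideal (𝓞 K) →*₀ ℂ) a‖ ^ 2 ≤ Ideal.absNorm a := by
    intro j a
    refine le_trans ?_ (PsiP_norm_le h a)
    have h4 : (PsiP K ψ * chp χ j : Ideal (𝓞 K) →*₀ ℂ) a = PsiP K ψ a * chp χ j a := rfl
    rw [h4, norm_mul, mul_pow]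
    exact mul_le_of_le_one_right (by positivity)
      (pow_le_one₀ (norm_nonneg _) (hf j a))
  have hsum := tm_summable (PsiP K' ψ) (fun a => PsiP_norm_le h a) s hs
  have hL := AI_LSeries (PsiP K' ψ) (PsiP K' ψ).map_zero s hsum
  have hsum1 := tm_summable (PsiP K ψ) (fun a => PsiP_norm_le h a) s hs
  have hL1 := AI_LSeries (PsiP K ψ) (PsiP K ψ).map_zero s hsum1
  have hL2 := fun j => AI_LSeries (PsiP K ψ * chp χ j : Ideal (𝓞 K) →*₀ ℂ)
    (PsiP K ψ * chp χ j : Ideal (𝓞 K) →*₀ ℂ).map_zero s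
    (tm_summable (PsiP K ψ * chp χ j : Ideal (𝓞 K) →*₀ ℂ) (hb j) s hs)
  have hL3 := pt5_prod (p - 1) (fun j => AI (PsiP K ψ * chp χ j : Ideal (𝓞 K) →*₀ ℂ))
    (fun j => Λ j s) (fun j hj => by
      have h3 := hL2 j
      rw [(hΛ j s hs).tsum_eq] at h3
      exact h3)
  have hL4 := ArithmeticFunction.LSeriesHasSum_mul hL1 hL3
  rw [← AI_stepP K K' ψ p hp χ hχ] at hL4
  have h5 : ∑' a, tm (PsiP K' ψ) s a = Λ₁ s * ∏ j ∈ Finset.range (p - 1), Λ j s := by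
    rw [hL.unique hL4, (hs1 s hs).tsum_eq]
  rw [← h5]
  exact hsum.of_norm.hasSum

section inert

variable {p : ℕ} (V : ValuationSubring ℂ)

/-- For p inert the size at V of an element of F and of its conjugate are equal. -/
theorem inert_el (hp : p.Prime) (hI : (Ideal.span {(p : 𝓞 F)}).IsPrime) (hV : V.valuation (p : ℂ) < 1) (x : 𝓞 F) :
    V.valuation ((starRingEnd ℂ) (eF F x)) = V.valuation (eF F x) := by
  rcases eq_or_ne x 0 with rfl | hx
  · rw [map_zero, map_zero]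
  have hp0 : ((p : ℕ) : 𝓞 F) ≠ 0 := Nat.cast_ne_zero.2 hp.ne_zero
  have hpr : Prime ((p : ℕ) : 𝓞 F) := (Ideal.span_singleton_prime hp0).1 hI
  have he : eF F ((p : ℕ) : 𝓞 F) = (p : ℂ) := map_natCast _ _
  have hV' : V.valuation (eF F ((p : ℕ) : 𝓞 F)) < 1 := by rw [he]; exact hV
  obtain ⟨u, hu, hud⟩ := (FiniteMultiplicity.of_prime_left hpr hx).exists_eq_pow_mul_and_not_dvd
  have hcu : ¬ ((p : ℕ) : 𝓞 F) ∣ H55K.cj u := by
    intro h
    apply hud
    have h1 := map_dvd (H55K.cj (F := F)) h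
    rwa [H55K.cj_cj, map_natCast] at h1
  have e1 : V.valuation (eF F u) = 1 := (H41D.val_eq_one_iff V hpr hV' u).2 hud
  have e2 : V.valuation (eF F (H55K.cj u)) = 1 := (H41D.val_eq_one_iff V hpr hV' _).2 hcu
  rw [H55K.e_cj] at e2
  rw [hu, map_mul, map_mul, map_mul, map_mul, e1, e2, map_pow, he, map_pow, map_natCast]

theorem inert_vN {K : Type} [Field K] [NumberField K] [Algebra F K] (hp : p.Prime) (hI : (Ideal.span {(p : 𝓞 F)}).IsPrime)
    (hV : V.valuation (p : ℂ) < 1) (a : Ideal (𝓞 K)) : vNc F V a = vN F V a :=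
  inert_el V hp hI hV _

/-- A prime p inert in F is unramified in F. -/
theorem inert_unr (hp : p.Prime) (hI : (Ideal.span {(p : 𝓞 F)}).IsPrime) : UnrP p F := by
  unfold UnrP
  have h1 : Prime (Ideal.span {((p : ℕ) : 𝓞 F)}) := Ideal.prime_of_isPrime (by
    rw [Ne, Ideal.span_singleton_eq_bot]
    exact Nat.cast_ne_zero.2 hp.ne_zero) hI
  exact h1.irreducible.squarefree

end inert

end SSU
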