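import Mathlib
import Pool.Agent.Lib.H41D.P8
import Pool.Agent.Lib.H55K.NK2
import Pool.Agent.Lib.H55K.RP3

/-! # SSU, V1: discriminants and relative differents over K and over KF (p unramified in F, K arbitrary) -/

open NumberField IsDedekindDomain

namespace SSU

open H55P H41D
open H55K (cj)
open H55K.TQ (QuadG)

variable {F : Type} [Field F] [NumberField F] [IQ F] {K : Type} [Field K] [NumberField K] [Algebra F K]

/-- An ideal which contains an integer prime to p. -/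
theorem vN_int (V : ValuationSubring ℂ) {p : ℕ} (hV : V.valuation (p : ℂ) < 1) {C : Ideal (𝓞 K)} {d : ℤ} (hd : IsCoprime (p : ℤ) d)
    (hC : ((d : ℤ) : 𝓞 K) ∈ C) : vN F V C = 1 ∧ vNc F V C = 1 := by
  have hsup : C ⊔ Ideal.span {algebraMap (𝓞 F) (𝓞 K) ((p : ℕ) : 𝓞 F)} = ⊤ := by
    obtain ⟨a, b, hab⟩ := hd
    rw [Ideal.eq_top_iff_one]
    have h1 : (1 : 𝓞 K) = ((b : ℤ) : 𝓞 K) * ((d : ℤ) : 𝓞 K) + ((a : ℤ) : 𝓞 K) * algebraMap (𝓞 F) (𝓞 K) ((p : ℕ) : 𝓞 F) := by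
      have h2 := congrArg (fun z : ℤ => ((z : ℤ) : 𝓞 K)) hab
      simp only [Int.cast_add, Int.cast_mul, Int.cast_one, Int.cast_natCast] at h2
      rw [map_natCast, ← h2]
      ring
    rw [h1]
    exact Ideal.add_mem _ (Ideal.mul_mem_left _ _ (Ideal.mem_sup_left hC))
      (Ideal.mul_mem_left _ _ (Ideal.mem_sup_right (Ideal.mem_span_singleton_self _)))
  have h1 : eF F ((p : ℕ) : 𝓞 F) = (p : ℂ) := map_natCast _ _
  refine ⟨vN_cop V (by rw [h1]; exact hV) hsup, vNc_cop V (by rw [h1, map_natCast]; exact hV) hsup⟩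

theorem val_discrU (V : ValuationSubring ℂ) {p : ℕ} (hp : p.Prime) (hV : V.valuation (p : ℂ) < 1) (hU : UnrP p F) :
    V.valuation ((discr F : ℤ) : ℂ) = 1 := by
  refine val_cop V hV ?_
  have h1 : ¬ (p : ℤ) ∣ discr F := pl1_discr p hp hU
  exact (Nat.prime_iff_prime_int.1 hp).coprime_iff_not_dvd.2 h1

/-- The absolute discriminant is the product of the norms of the different at V and at the conjugate place. -/
theorem val_discr' (V : ValuationSubring ℂ) {p : ℕ} (hp : p.Prime) (hV : V.valuation (p : ℂ) < 1) (hU : UnrP p F) :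
    V.valuation ((discr K : ℤ) : ℂ) = vN F V (differentIdeal (𝓞 F) (𝓞 K)) * vNc F V (differentIdeal (𝓞 F) (𝓞 K)) := by
  have h1 := NumberField.natAbs_discr_eq_absNorm_differentIdeal_mul_natAbs_discr_pow F (𝓞 F) K (𝓞 K)
  rw [← val_absNorm, ← val_natAbs V (discr K), h1]
  push_cast
  rw [map_mul, map_pow, val_natAbs V (discr F), val_discrU V hp hV hU, one_pow, mul_one]

section quad

variable {K₀ : Type} [Field K₀] [NumberField K₀] [Algebra K₀ K]

/-- The relative norm to F of an ideal extended from K₀ is stable under the conjugation. -/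
theorem v1_stab (hQ : QuadG F K₀ K) (a : Ideal (𝓞 K₀)) {y : 𝓞 F}
    (hy : y ∈ Ideal.relNorm (𝓞 F) (a.map (algebraMap (𝓞 K₀) (𝓞 K)))) :
    cj y ∈ Ideal.relNorm (𝓞 F) (a.map (algebraMap (𝓞 K₀) (𝓞 K))) := by
  obtain ⟨τ, hτ⟩ := hQ.tau
  have hcj : ∀ z : F, ∃ c : F ≃+* F, (∀ x : 𝓞 F, c (x : F) = ((cj x : 𝓞 F) : F)) := fun _ =>
    ⟨IsFractionRing.ringEquivOfRingEquiv (A := 𝓞 F) (B := 𝓞 F) (K := F) (L := F) cj, fun x => by
      rw [show ((x : 𝓞 F) : F) = algebraMap (𝓞 F) F x from rfl, IsFractionRing.ringEquivOfRingEquiv_algebraMap]⟩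
  obtain ⟨c, hc⟩ := hcj 0
  have he : (algebraMap F K).comp (c : F →+* F) = ((τ : K ≃+* K) : K →+* K).comp (algebraMap F K) := by
    refine IsLocalization.ringHom_ext (nonZeroDivisors (𝓞 F)) ?_
    ext x
    show algebraMap F K (c (x : F)) = τ (algebraMap F K (x : F))
    rw [hc, hτ]
  have hle : Ideal.relNorm (𝓞 F) (a.map (algebraMap (𝓞 K₀) (𝓞 K))) ≤
      (Ideal.relNorm (𝓞 F) (a.map (algebraMap (𝓞 K₀) (𝓞 K)))).comap ((cj : 𝓞 F ≃+* 𝓞 F) : 𝓞 F →+* 𝓞 F) := by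
    conv_lhs => rw [Ideal.relNorm_apply]
    rw [Ideal.span_le]
    rintro _ ⟨x, hx, rfl⟩
    show cj (Algebra.intNorm (𝓞 F) (𝓞 K) x) ∈ Ideal.relNorm (𝓞 F) (a.map (algebraMap (𝓞 K₀) (𝓞 K)))
    set t : 𝓞 K ≃+* 𝓞 K := RingOfIntegers.mapRingEquiv (τ : K ≃+* K) with ht
    have htx : ∀ x : 𝓞 K, ((t x : 𝓞 K) : K) = τ (x : K) := fun x => rfl
    have hmem : t x ∈ a.map (algebraMap (𝓞 K₀) (𝓞 K)) := by
      have h1 : a.map (algebraMap (𝓞 K₀) (𝓞 K)) ≤ (a.map (algebraMap (𝓞 K₀) (𝓞 K))).comap (t : 𝓞 K →+* 𝓞 K) := by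
        rw [Ideal.map_le_iff_le_comap]
        intro y hy
        show t (algebraMap (𝓞 K₀) (𝓞 K) y) ∈ a.map (algebraMap (𝓞 K₀) (𝓞 K))
        have h2 : t (algebraMap (𝓞 K₀) (𝓞 K) y) = algebraMap (𝓞 K₀) (𝓞 K) y := by
          apply RingOfIntegers.coe_injective
          show τ (algebraMap K₀ K (y : K₀)) = algebraMap K₀ K (y : K₀)
          exact τ.commutes _
        rw [h2]
        exact Ideal.mem_map_of_mem _ hy
      exact h1 hx
    have hn : cj (Algebra.intNorm (𝓞 F) (𝓞 K) x) = Algebra.intNorm (𝓞 F) (𝓞 K) (t x) := by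
      apply RingOfIntegers.coe_injective
      have h3 := Algebra.norm_eq_of_equiv_equiv c (τ : K ≃+* K) he (x : K)
      have h4 : ((Algebra.intNorm (𝓞 F) (𝓞 K) x : 𝓞 F) : F) = Algebra.norm F (x : K) :=
        Algebra.algebraMap_intNorm (A := 𝓞 F) (K := F) (L := K) (B := 𝓞 K) x
      have h5 : ((Algebra.intNorm (𝓞 F) (𝓞 K) (t x) : 𝓞 F) : F) = Algebra.norm F (τ (x : K)) :=
        Algebra.algebraMap_intNorm (A := 𝓞 F) (K := F) (L := K) (B := 𝓞 K) (t x)
      show ((cj (Algebra.intNorm (𝓞 F) (𝓞 K) x) : 𝓞 F) : F) = ((Algebra.intNorm (𝓞 F) (𝓞 K) (t x) : 𝓞 F) : F)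
      rw [h5, ← hc, h4, h3]
      exact c.apply_symm_apply _
    rw [hn]
    exact Ideal.subset_span ⟨t x, hmem, rfl⟩
  exact hle hy

theorem vN_conj (hQ : QuadG F K₀ K) (V : ValuationSubring ℂ) (a : Ideal (𝓞 K₀)) :
    vNc F V (a.map (algebraMap (𝓞 K₀) (𝓞 K))) = vN F V (a.map (algebraMap (𝓞 K₀) (𝓞 K))) := by
  obtain ⟨g, hg⟩ := exists_gen (F := F) (a.map (algebraMap (𝓞 K₀) (𝓞 K)))
  have h1 : g ∣ cj g := by
    have h := v1_stab hQ a (y := g) (by rw [hg]; exact Ideal.mem_span_singleton_self g)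
    rwa [hg, Ideal.mem_span_singleton] at h
  have h2 : cj g ∣ g := by
    have h := map_dvd (cj (F := F)) h1
    rwa [H55K.cj_cj] at h
  have h3 : Ideal.relNorm (𝓞 F) (a.map (algebraMap (𝓞 K₀) (𝓞 K))) = Ideal.span {cj g} := by
    rw [hg]
    exact Ideal.span_singleton_eq_span_singleton.2 (associated_of_dvd_dvd h1 h2)
  rw [vN_eq V h3, vNc_eq V hg, H55K.e_cj]

/-- The different of K/K₀ contains an integer prime to p. -/
theorem v1_int (hQ : QuadG F K₀ K) {p : ℕ} (hp : p.Prime) (hp2 : p ≠ 2) (hU : UnrP p F) :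
    ∃ d : ℤ, IsCoprime (p : ℤ) d ∧ ((d : ℤ) : 𝓞 K) ∈ differentIdeal (𝓞 K₀) (𝓞 K) := by
  classical
  obtain ⟨δ, hδ, hNδ⟩ := H55K.TQ.nk2_delta hp hp2 hU
  obtain ⟨τ, hτ⟩ := hQ.tau
  have hNm : δ * cj δ = ((Nm δ : ℕ) : 𝓞 F) := by
    apply eF_inj
    rw [map_mul, H55K.e_cj, map_natCast, ← absNorm_eF]
    rfl
  set x : 𝓞 K := algebraMap (𝓞 F) (𝓞 K) δ with hx
  have hx2 : x * x = -((Nm δ : ℕ) : 𝓞 K) := by
    have h1 := congrArg (algebraMap (𝓞 F) (𝓞 K)) hNm
    rw [hδ, mul_neg, map_neg, map_mul, map_natCast] at h1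
    rw [← h1, neg_neg]
  have hN0 : Nm δ ≠ 0 := fun h => hNδ (h ▸ dvd_zero p)
  have hx0 : x ≠ 0 := by
    intro h
    rw [h, mul_zero] at hx2
    have h1 : ((Nm δ : ℕ) : 𝓞 K) = 0 := neg_eq_zero.1 hx2.symm
    exact hN0 (by exact_mod_cast h1)
  have hτx : τ (x : K) = -(x : K) := by
    have h1 := hτ δ
    rw [hδ] at h1
    show τ (algebraMap F K (δ : F)) = -algebraMap F K (δ : F)
    rw [h1, ← map_neg]
    rfl
  have hnot : ∀ y : K₀, algebraMap K₀ K y ≠ (x : K) := by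
    intro y hy
    have h1 := τ.commutes y
    rw [hy, hτx] at h1
    have h2 : (x : K) = 0 := by linear_combination (-1 / 2 : K) * h1
    exact hx0 (RingOfIntegers.coe_injective (h2.trans (map_zero _).symm))
  -- the minimal polynomial
  have hmp : minpoly (𝓞 K₀) x = Polynomial.X ^ 2 + Polynomial.C ((Nm δ : ℕ) : 𝓞 K₀) := by
    have hint : IsIntegral (𝓞 K₀) x := Algebra.IsIntegral.isIntegral x
    have hmon : (Polynomial.X ^ 2 + Polynomial.C ((Nm δ : ℕ) : 𝓞 K₀)).Monic := Polynomial.monic_X_pow_add_C _ two_ne_zero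
    have hroot : Polynomial.aeval x (Polynomial.X ^ 2 + Polynomial.C ((Nm δ : ℕ) : 𝓞 K₀)) = 0 := by
      rw [map_add, map_pow, Polynomial.aeval_X, Polynomial.aeval_C, map_natCast, sq, hx2, neg_add_cancel]
    have hdvd : minpoly (𝓞 K₀) x ∣ Polynomial.X ^ 2 + Polynomial.C ((Nm δ : ℕ) : 𝓞 K₀) :=
      minpoly.isIntegrallyClosed_dvd hint hroot
    have hd2 : (Polynomial.X ^ 2 + Polynomial.C ((Nm δ : ℕ) : 𝓞 K₀)).natDegree = 2 := Polynomial.natDegree_X_pow_add_C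
    refine (Polynomial.eq_of_monic_of_dvd_of_natDegree_le (minpoly.monic hint) hmon hdvd ?_).symm ▸ rfl
    rw [hd2]
    by_contra hlt
    push Not at hlt
    have h1 : (minpoly (𝓞 K₀) x).natDegree = 1 := by
      have := minpoly.natDegree_pos hint
      omega
    obtain ⟨y, hy⟩ := minpoly.natDegree_eq_one_iff.1 h1
    apply hnot (y : K₀)
    rw [← hy]
    rfl
  have hadj : Algebra.adjoin K₀ {algebraMap (𝓞 K) K x} = ⊤ := by
    have halg : IsIntegral K₀ (x : K) := (Algebra.IsIntegral.isIntegral (R := K₀) (x : K))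
    have h1 : (IntermediateField.adjoin K₀ {(x : K)}) = ⊤ := by
      have h2 : Module.finrank K₀ K = 2 := hQ.rank
      have : FiniteDimensional K₀ K := Module.Finite.of_restrictScalars_finite ℚ K₀ K
      have h3 := Module.finrank_mul_finrank K₀ (IntermediateField.adjoin K₀ {(x : K)}) K
      rw [h2] at h3
      have h4 : Module.finrank K₀ (IntermediateField.adjoin K₀ {(x : K)}) ≠ 1 := by
        intro h5
        rw [IntermediateField.finrank_eq_one_iff, IntermediateField.adjoin_simple_eq_bot_iff] at h5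
        obtain ⟨y, hy⟩ := IntermediateField.mem_bot.1 h5
        exact hnot y hy
      have h5 : Module.finrank K₀ (IntermediateField.adjoin K₀ {(x : K)}) ∣ 2 := ⟨_, h3.symm⟩
      have h6 : Module.finrank K₀ (IntermediateField.adjoin K₀ {(x : K)}) = 2 :=
        ((Nat.dvd_prime Nat.prime_two).1 h5).resolve_left h4
      exact IntermediateField.eq_of_le_of_finrank_eq le_top (by rw [h6, IntermediateField.finrank_top', h2])
    have h2 := IntermediateField.adjoin_simple_toSubalgebra_of_isAlgebraic halg.isAlgebraic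
    rw [h1, IntermediateField.top_toSubalgebra] at h2
    exact h2.symm
  have hder := aeval_derivative_mem_differentIdeal (𝓞 K₀) K₀ K x hadj
  have hder2 : Polynomial.aeval x (Polynomial.derivative (minpoly (𝓞 K₀) x)) = 2 * x := by
    rw [hmp]
    simp
    left
    norm_num
  rw [hder2] at hder
  refine ⟨-(2 * (Nm δ : ℤ)), ?_, ?_⟩
  · rw [IsCoprime.neg_right_iff]
    refine IsCoprime.mul_right ?_ ?_
    · have h1 : Nat.Coprime p 2 := (Nat.coprime_primes hp Nat.prime_two).2 hp2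
      exact_mod_cast Nat.isCoprime_iff_coprime.2 h1
    · exact Nat.isCoprime_iff_coprime.2 ((Nat.Prime.coprime_iff_not_dvd hp).2 hNδ)
  · have h1 : (((-(2 * (Nm δ : ℤ)) : ℤ)) : 𝓞 K) = x * (2 * x) := by
      push_cast
      linear_combination (-2 : 𝓞 K) * hx2
    rw [h1]
    exact Ideal.mul_mem_left _ _ hder

/-- The discriminant and the different of K = K₀ F at p. -/
theorem v1_quad (hQ : QuadG F K₀ K) (V : ValuationSubring ℂ) {p : ℕ} (hp : p.Prime) (hp2 : p ≠ 2) (hV : V.valuation (p : ℂ) < 1)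
    (hU : UnrP p F) :
    vNc F V (differentIdeal (𝓞 F) (𝓞 K)) = vN F V (differentIdeal (𝓞 F) (𝓞 K)) ∧
      V.valuation ((discr K₀ : ℤ) : ℂ) = vN F V (differentIdeal (𝓞 F) (𝓞 K)) := by
  obtain ⟨d, hd, hdm⟩ := v1_int hQ hp hp2 hU
  -- the different of F over the integers
  have hF : IsCoprime (p : ℤ) (discr F) := (Nat.prime_iff_prime_int.1 hp).coprime_iff_not_dvd.2 (pl1_discr p hp hU)
  have hFm : ((discr F : ℤ) : 𝓞 F) ∈ differentIdeal ℤ (𝓞 F) := by
    have h1 : ((Ideal.absNorm (differentIdeal ℤ (𝓞 F)) : ℕ) : 𝓞 F) ∈ differentIdeal ℤ (𝓞 F) := Ideal.absNorm_mem _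
    rw [NumberField.absNorm_differentIdeal (K := F)] at h1
    rcases Int.natAbs_eq (discr F) with h | h
    · rw [h, Int.cast_natCast]
      exact h1
    · rw [h, Int.cast_neg, Int.cast_natCast]
      exact (Submodule.neg_mem_iff _).2 h1
  have hFm' : ((discr F : ℤ) : 𝓞 K) ∈ (differentIdeal ℤ (𝓞 F)).map (algebraMap (𝓞 F) (𝓞 K)) := by
    have h1 := Ideal.mem_map_of_mem (algebraMap (𝓞 F) (𝓞 K)) hFm
    rwa [map_intCast] at h1
  have h1 : differentIdeal ℤ (𝓞 K) = differentIdeal (𝓞 F) (𝓞 K) * (differentIdeal ℤ (𝓞 F)).map (algebraMap (𝓞 F) (𝓞 K)) :=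
    differentIdeal_eq_differentIdeal_mul_differentIdeal ℤ (𝓞 F) (𝓞 K)
  have h2 : differentIdeal ℤ (𝓞 K) = differentIdeal (𝓞 K₀) (𝓞 K) * (differentIdeal ℤ (𝓞 K₀)).map (algebraMap (𝓞 K₀) (𝓞 K)) :=
    differentIdeal_eq_differentIdeal_mul_differentIdeal ℤ (𝓞 K₀) (𝓞 K)
  have h3 := h1.symm.trans h2
  have e1 := congrArg (vN F V) h3
  have e2 := congrArg (vNc F V) h3
  rw [vN_mul, vN_mul, (vN_int V hV hF hFm').1, (vN_int V hV hd hdm).1, one_mul, mul_one] at e1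
  rw [vNc_mul, vNc_mul, (vN_int V hV hF hFm').2, (vN_int V hV hd hdm).2, one_mul, mul_one] at e2
  have e3 : vNc F V (differentIdeal (𝓞 F) (𝓞 K)) = vN F V (differentIdeal (𝓞 F) (𝓞 K)) := by
    rw [e1, e2, vN_conj hQ]
  refine ⟨e3, ?_⟩
  have h4 := val_discr' (F := F) (K := K) V hp hV hU
  rw [e3] at h4
  have h5 := NumberField.natAbs_discr_eq_absNorm_differentIdeal_mul_natAbs_discr_pow K₀ (𝓞 K₀) K (𝓞 K)
  have h6 : V.valuation ((Ideal.absNorm (differentIdeal (𝓞 K₀) (𝓞 K)) : ℕ) : ℂ) = 1 := by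
    rw [val_absNorm (F := F), (vN_int V hV hd hdm).1, (vN_int V hV hd hdm).2, one_mul]
  have h7 : V.valuation ((discr K : ℤ) : ℂ) = V.valuation ((discr K₀ : ℤ) : ℂ) ^ 2 := by
    rw [← val_natAbs V (discr K), h5]
    push_cast
    rw [map_mul, map_pow, val_natAbs V (discr K₀), h6, one_mul, hQ.rank]
  rw [h7, ← sq] at h4
  exact (pow_left_inj₀ zero_le zero_le two_ne_zero).1 h4

end quad

end SSU
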