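import Mathlib
import Pool.Agent.Lib.SSU.A1
import Pool.Agent.Lib.SSU.A2
import Pool.Agent.Lib.SSU.V1
import Pool.Agent.Lib.SSR.TW
import Pool.Agent.Lib.SSR.C2
import Pool.Agent.Lib.H35M.SX3A
import Pool.Agent.Lib.H35M.SYD

/-! # SSU, A3: one cyclic step of degree p, p inert in F, conductor exponents 2 at the ramified primes above p -/

open NumberField IsDedekindDomain

namespace SSU

open H55N H55P SSR
open H55R (es)
open H35M (LVO LVOi fT)
open H41D (vN vNc)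

variable {F : Type} [Field F] [NumberField F] [IQ F] {p : ℕ} {M : Ideal (𝓞 F)} {ψ : Ideal (𝓞 F) →*₀ 𝓞 F} {Om : ℂ}

section loc

variable {K : Type} [Field K] [NumberField K] [Algebra F K] {h : Ideal (𝓞 K) →*₀ ℂ} {Φ : ℂ → ℂ}
  (hΦa : AnalyticOnNhd ℂ Φ {s | 1 / 2 < s.re}) (hΦ : ∀ s : ℂ, 3 / 2 < s.re → HasSum (tm h s) (Φ s))
  (V : ValuationSubring ℂ)

include hΦa hΦ

theorem a3_one {Λ : ℂ → ℂ} (hΛa : AnalyticOnNhd ℂ Λ {s | 1 / 2 < s.re}) (hΛ : ∀ s : ℂ, 3 / 2 < s.re → HasSum (tm h s) (Λ s)) :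
    Λ 1 = Φ 1 :=
  ident Λ Φ hΛa hΦa (fun s hs => (hΛ s hs).unique (hΦ s hs)) 1 (by norm_num)

theorem a3_lvo : LVO F V Om h ↔
    V.valuation (Φ 1 / Om ^ Module.finrank F K) ^ 2 * vN F V (differentIdeal (𝓞 F) (𝓞 K)) = 1 := by
  constructor
  · rintro ⟨Λ, h1, h2, h3⟩
    rw [← a3_one hΦa hΦ h1 h2]
    exact h3
  · intro h3
    exact ⟨Φ, hΦa, hΦ, h3⟩

theorem a3_lvc {c : ℂ} : LVC F V Om c h ↔ V.valuation (Φ 1 / Om ^ Module.finrank F K) ^ 4 * V.valuation c = 1 := by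
  constructor
  · rintro ⟨Λ, h1, h2, h3⟩
    rw [← a3_one hΦa hΦ h1 h2]
    exact h3
  · intro h3
    exact ⟨Φ, hΦa, hΦ, h3⟩

end loc

/-- The fourth power and the discriminant against the square and the norm of the different. -/
theorem a3_sq (hp : p.Prime) (hI : (Ideal.span {(p : 𝓞 F)}).IsPrime) {V : ValuationSubring ℂ} (hV : V.valuation (p : ℂ) < 1)
    (K : Type) [Field K] [NumberField K] [Algebra F K] (z : ℂ) :
    V.valuation z ^ 4 * V.valuation ((discr K : ℤ) : ℂ) = (V.valuation z ^ 2 * vN F V (differentIdeal (𝓞 F) (𝓞 K))) ^ 2 := by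
  rw [val_discr' (F := F) V hp hV (inert_unr hp hI), inert_vN V hp hI hV, mul_pow, ← pow_mul, sq (vN F V _)]

theorem lvc_iff (hp : p.Prime) (hI : (Ideal.span {(p : 𝓞 F)}).IsPrime) {V : ValuationSubring ℂ} (hV : V.valuation (p : ℂ) < 1)
    {K : Type} [Field K] [NumberField K] [Algebra F K] (h : Ideal (𝓞 K) →*₀ ℂ) :
    LVC F V Om ((discr K : ℤ) : ℂ) h ↔ LVO F V Om h := by
  unfold LVC LVO
  refine exists_congr fun Λ => and_congr_right fun _ => and_congr_right fun _ => ?_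
  rw [a3_sq (F := F) hp hI hV]
  exact pow_eq_one_iff_of_nonneg zero_le two_ne_zero

theorem lvci_iff (hp : p.Prime) (hI : (Ideal.span {(p : 𝓞 F)}).IsPrime) {V : ValuationSubring ℂ} (hV : V.valuation (p : ℂ) < 1)
    {K : Type} [Field K] [NumberField K] [Algebra F K] (h : Ideal (𝓞 K) →*₀ ℂ) :
    LVCI F V Om ((discr K : ℤ) : ℂ) h ↔ LVOi F V Om h := by
  unfold LVCI LVOi
  refine exists_congr fun Λ => and_congr_right fun _ => and_congr_right fun _ => ?_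
  rw [a3_sq (F := F) hp hI hV]
  exact pow_le_one_iff_of_nonneg zero_le two_ne_zero

/-- The condition holds at the primes above p. -/
theorem cond_p (hp : p.Prime) (hI : (Ideal.span {(p : 𝓞 F)}).IsPrime) (hψ : ψ (Ideal.span {(p : 𝓞 F)}) = -(p : 𝓞 F))
    {V : ValuationSubring ℂ} (hV : V.valuation (p : ℂ) < 1) {K : Type} [Field K] [NumberField K] [Algebra F K]
    (w : HeightOneSpectrum (𝓞 K)) (hw : (p : 𝓞 K) ∈ w.asIdeal) :
    V.valuation (1 - (starRingEnd ℂ) (PsiP K ψ w.asIdeal)) = 1 := by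
  have hp0 : ((p : ℕ) : 𝓞 F) ≠ 0 := Nat.cast_ne_zero.2 hp.ne_zero
  have hpr : Prime ((p : ℕ) : 𝓞 F) := (Ideal.span_singleton_prime hp0).1 hI
  obtain ⟨k, hk, hN⟩ := H41D.relNorm_prime hpr w (by rw [map_natCast]; exact hw)
  have h1 : ψ (Ideal.relNorm (𝓞 F) w.asIdeal) = (-(p : 𝓞 F)) ^ k := by
    rw [hN, ← Ideal.span_singleton_pow, map_pow, hψ]
  have h2 : (starRingEnd ℂ) (PsiP K ψ w.asIdeal) = (-(p : ℂ)) ^ k := by
    rw [PsiP_apply, h1, Complex.conj_conj, map_pow, map_neg, map_natCast]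
  rw [h2]
  refine Valuation.map_one_sub_of_lt _ ?_
  rw [map_pow, Valuation.map_neg]
  exact pow_lt_one₀ zero_le hV hk

section step

variable [Fact p.Prime] (hS : SCtx p M ψ Om) {V : ValuationSubring ℂ} (hV : V.valuation (p : ℂ) < 1)

include hS hV

theorem lvoi_C (K : Type) [Field K] [NumberField K] [Algebra F K] (hNT : NTP K p M ψ V) : LVOi F V Om (PsiP K ψ) :=
  (lvci_iff Fact.out hS.inert hV _).1 (tw_base hS V hV hNT)

omit hS in
/-- The relative norm of the different of K'/F. -/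
theorem a3_diff (K K' : Type) [Field K] [NumberField K] [Algebra F K] [Field K'] [NumberField K'] [Algebra F K'] [Algebra K K']
    [IsScalarTower F K K'] [IsGalois K K'] (hn : Module.finrank K K' = p) {R : Finset (HeightOneSpectrum (𝓞 K))}
    (hR : ∀ v, v ∈ R ↔ (p : 𝓞 K) ∈ v.asIdeal ∧ es K K' v ≠ 1)
    (hT : ∀ v ∈ R, ∃ w : HeightOneSpectrum (𝓞 K'), TRam p v w 1) :
    vN F V (differentIdeal (𝓞 F) (𝓞 K')) = (vN F V (∏ v ∈ R, v.asIdeal) ^ 2) ^ (p - 1) * vN F V (differentIdeal (𝓞 F) (𝓞 K)) ^ p := by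
  have hp : p.Prime := Fact.out
  have hx0 : ((p : ℕ) : 𝓞 K) ≠ 0 := Nat.cast_ne_zero.2 hp.ne_zero
  obtain ⟨C, hC, hD⟩ := diff_stepX K K' hp hn hx0 (t := fun _ => 1) hR hT
  have he : eF F ((p : ℕ) : 𝓞 F) = (p : ℂ) := map_natCast _ _
  have hC1 : vN F V C = 1 := by
    refine H41D.vN_cop V (π := ((p : ℕ) : 𝓞 F)) (by rw [he]; exact hV) ?_
    rw [map_natCast]
    exact hC
  have hfT : fT R (fun _ => 1 + 1) = (∏ v ∈ R, v.asIdeal) ^ 2 := by
    unfold fT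
    rw [← Finset.prod_pow]
  rw [H41D.vN_diff_tower (K := K), hn, hD, H41D.vN_mul, H41D.vN_pow, hfT, H41D.vN_pow, hC1, mul_one]

/-- One step. -/
theorem stepC (K K' : Type) [Field K] [NumberField K] [Algebra F K] [Field K'] [NumberField K'] [Algebra F K'] [Algebra K K']
    [IsScalarTower F K K'] [IsGalois K K'] (hn : Module.finrank K K' = p) (hNT : NTP K p M ψ V)
    (hT : ∀ v : HeightOneSpectrum (𝓞 K), es K K' v ≠ 1 → (p : 𝓞 K) ∈ v.asIdeal → ∃ w : HeightOneSpectrum (𝓞 K'), TRam p v w 1) :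
    LVO F V Om (PsiP K' ψ) ↔ LVO F V Om (PsiP K ψ) ∧
      ∀ w : HeightOneSpectrum (𝓞 K), es K K' w ≠ 1 → V.valuation (1 - (starRingEnd ℂ) (PsiP K ψ w.asIdeal)) = 1 := by
  have hp : p.Prime := Fact.out
  have hI := hS.inert
  have hre : IsEmpty (K →+* ℝ) := H35M.sx3_real F K
  obtain ⟨f, R, ρ, hfp, hfv, hR, hρ⟩ := c2_rec hp hn (fun _ => 1) hT hre
  have hρ' : IsRc K K' p (f * ∏ v ∈ R, v.asIdeal ^ 2) ρ := hρ
  have hf : PCh p f R ρ := c3_pch p f R ρ hρ' hfp fun v hv => ((hR v).1 hv).1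
  have hs : SplitP K K' p ρ := c3_split p hp hn _ ρ hρ'
  obtain ⟨Λ₁, ha1, hs1, hi1⟩ := tw_base hS V hV hNT
  have htw := fun j => tw_main hS V hV hNT (c3_chp hf j)
  choose Λ hΛa hΛs hΛi using fun j => (htw j).1
  set n := Module.finrank F K with hnd
  set μ := vN F V (differentIdeal (𝓞 F) (𝓞 K)) with hμ
  set ν := vN F V (∏ v ∈ R, v.asIdeal) with hν
  have hdiff := a3_diff (F := F) hV K K' hn hR fun v hv => hT v ((hR v).1 hv).2 ((hR v).1 hv).1
  rw [← hμ, ← hν] at hdiff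
  -- the size of cR R
  have hcR : ∀ z : ℂ, V.valuation z ^ 4 * V.valuation (cR R) = (V.valuation z ^ 2 * μ * ν ^ 2) ^ 2 := by
    intro z
    have h1 : V.valuation ((∏ v ∈ R, Ideal.absNorm v.asIdeal : ℕ) : ℂ) = ν ^ 2 := by
      rw [← map_prod, H41D.val_absNorm (F := F), inert_vN V hp hI hV, ← sq]
    rw [cR, map_mul, map_pow, h1, ← mul_assoc, a3_sq (F := F) hp hI hV, ← mul_pow]
  -- the twists
  have hy : ∀ j, V.valuation (Λ j 1 / Om ^ n) ^ 2 * μ * ν ^ 2 ≤ 1 := by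
    intro j
    have h1 := hΛi j
    rw [hcR] at h1
    exact (pow_le_one_iff_of_nonneg zero_le two_ne_zero).1 h1
  have hx1 : V.valuation (Λ₁ 1 / Om ^ n) ^ 2 * μ ≤ 1 := by
    rw [a3_sq (F := F) hp hI hV] at hi1
    exact (pow_le_one_iff_of_nonneg zero_le two_ne_zero).1 hi1
  have hyj : ∀ j, V.valuation (Λ j 1 / Om ^ n) ^ 2 * μ * ν ^ 2 = 1 ↔ LVO F V Om (PsiP K ψ) ∧
      ∀ w : HeightOneSpectrum (𝓞 K), f ≤ w.asIdeal → V.valuation (1 - (starRingEnd ℂ) (PsiP K ψ w.asIdeal)) = 1 := by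
    intro j
    rw [← lvc_iff hp hI hV, ← (htw j).2, a3_lvc (hΛa j) (hΛs j), hcR]
    exact (pow_eq_one_iff_of_nonneg zero_le two_ne_zero).symm
  -- the value over K'
  have hΦa : AnalyticOnNhd ℂ (fun s => Λ₁ s * ∏ j ∈ Finset.range (p - 1), Λ j s) {s | 1 / 2 < s.re} := fun s hs' =>
    (ha1 s hs').mul (Finset.analyticAt_fun_prod _ fun j _ => hΛa j s hs')
  have hΦs : ∀ s : ℂ, 3 / 2 < s.re → HasSum (tm (PsiP K' ψ) s) (Λ₁ s * ∏ j ∈ Finset.range (p - 1), Λ j s) := fun s hs' =>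
    step_prodC K K' hS.hecke p hp ρ (fun j a => pch_norm_le hp.ne_zero (c3_chp hf j) a) hs Λ₁ hs1 Λ hΛs s hs'
  have h5 : Om ^ Module.finrank F K' = Om ^ n * ∏ j ∈ Finset.range (p - 1), Om ^ n := by
    rw [← Module.finrank_mul_finrank F K K', hn, pow_mul, Finset.prod_const, Finset.card_range,
      ← pow_succ', Nat.sub_add_cancel hp.one_le]
  have hval : V.valuation ((Λ₁ 1 * ∏ j ∈ Finset.range (p - 1), Λ j 1) / Om ^ Module.finrank F K') ^ 2 *
      vN F V (differentIdeal (𝓞 F) (𝓞 K')) =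
      (V.valuation (Λ₁ 1 / Om ^ n) ^ 2 * μ) * ∏ j ∈ Finset.range (p - 1), (V.valuation (Λ j 1 / Om ^ n) ^ 2 * μ * ν ^ 2) := by
    rw [h5, mul_div_mul_comm, ← Finset.prod_div_distrib, map_mul, map_prod, hdiff, Finset.prod_mul_distrib, Finset.prod_mul_distrib,
      Finset.prod_const, Finset.prod_const, Finset.card_range, Finset.prod_pow, mul_pow]
    have e : μ ^ p = μ * μ ^ (p - 1) := by
      rw [← pow_succ', Nat.sub_add_cancel hp.one_le]
    rw [e]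
    simp only [mul_assoc, mul_left_comm, mul_comm]
  rw [a3_lvo hΦa hΦs, hval]
  have hlvo := a3_lvo (F := F) (Om := Om) ha1 hs1 V
  constructor
  · intro h
    have hle : ∏ j ∈ Finset.range (p - 1), (V.valuation (Λ j 1 / Om ^ n) ^ 2 * μ * ν ^ 2) ≤ 1 :=
      Finset.prod_le_one' fun j _ => hy j
    have hp1 : ∏ j ∈ Finset.range (p - 1), (V.valuation (Λ j 1 / Om ^ n) ^ 2 * μ * ν ^ 2) = 1 := by
      refine le_antisymm hle ?_
      by_contra hlt
      have h11 := mul_lt_one_of_nonneg_of_lt_one_right hx1 zero_le (not_le.1 hlt)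
      rw [h] at h11
      exact lt_irrefl _ h11
    have h0 := (Finset.prod_eq_one_iff_of_le_one' fun j _ => hy j).1 hp1 0
      (Finset.mem_range.2 (Nat.sub_pos_of_lt hp.one_lt))
    obtain ⟨h6, h7⟩ := (hyj 0).1 h0
    refine ⟨h6, fun w hw => ?_⟩
    by_cases hpw : (p : 𝓞 K) ∈ w.asIdeal
    · exact cond_p hp hI hS.val hV w hpw
    · exact h7 w ((hfv w).2 ⟨hpw, hw⟩)
  · rintro ⟨h6, h7⟩
    rw [hlvo.1 h6, one_mul]
    exact Finset.prod_eq_one fun j _ => (hyj j).2 ⟨h6, fun w hw => h7 w ((hfv w).1 hw).2⟩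

end step

end SSU
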