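import Mathlib
import Pool.Agent.Lib.SSU.A3
import Pool.Agent.Lib.SSU.G2D
import Pool.Agent.Lib.SSR.R8
import Pool.Agent.Lib.H35M.SX2
import Pool.Agent.Lib.H55P.I3

/-! # SSU, A4: the tower, p inert in F, second ramification groups trivial at the primes above p -/

open NumberField IsDedekindDomain

namespace SSU

open H55N H55P SSR
open H55R (es)
open H35M (LVO LVOi)

section g2

variable {F : Type} [Field F] [NumberField F] {Ω : Type} [Field Ω] [Algebra F Ω]

variable [IsAlgClosure F Ω]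

theorem g2_types {p : ℕ} (M N L : IntermediateField F Ω) [NumberField N] [NumberField L] (hMN : M ≤ N) (hNL : N ≤ L)
    (hG : G2F p M L) (Q : Ideal (𝓞 L)) (hQ : Q.IsPrime) (hp : (p : 𝓞 L) ∈ Q) :
    letI : Algebra N L := s13_alg hNL
    G2 N Q := by
  letI : Algebra N L := s13_alg hNL
  have hac : IsAlgClosed Ω := IsAlgClosure.isAlgClosed F
  have halg : Algebra.IsAlgebraic F Ω := IsAlgClosure.isAlgebraic
  have halgN : Algebra.IsAlgebraic N Ω := Algebra.IsAlgebraic.tower_top (K := F) N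
  have hclN : IsAlgClosure N Ω := ⟨hac, halgN⟩
  have hst : IsScalarTower N L Ω := IsScalarTower.of_algebraMap_eq fun x => rfl
  have hnorm : Normal N Ω := normal_iff.2 fun x =>
    ⟨(Algebra.IsAlgebraic.isAlgebraic x).isIntegral, IsAlgClosed.splits _⟩
  intro s hs
  let σ : Ω ≃ₐ[N] Ω := s.liftNormal Ω
  have hσ : ∀ x : L, σ (x : Ω) = ((s x : L) : Ω) := fun x => s.liftNormal_commutes Ω x
  have hmem : σ.restrictScalars F ∈ M.fixingSubgroup := by
    rw [IntermediateField.mem_fixingSubgroup_iff]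
    intro x hx
    exact σ.commutes (⟨x, hMN hx⟩ : N)
  have h1 := hG Q hQ hp (σ.restrictScalars F) hmem (fun x y hxy => by
    have h2 : σ ((x : L) : Ω) = ((y : L) : Ω) := hxy
    rw [hσ] at h2
    have h3 : s (x : L) = (y : L) := Subtype.ext h2
    have h4 : s • x = y := by
      apply RingOfIntegers.coe_injective
      exact h3
    rw [← h4]
    exact hs x)
  refine AlgEquiv.ext fun x => Subtype.ext ?_
  have h2 := h1 (x : Ω) x.2
  have h3 : σ (x : Ω) = (x : Ω) := h2
  rw [hσ] at h3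
  exact h3

theorem g2_TRam {p : ℕ} (hp : p.Prime) (M N K L : IntermediateField F Ω) (hL : PExt p M L) (hG : G2F p M L) [NumberField N]
    [NumberField K] (hMN : M ≤ N) (hNK : N ≤ K) (hKL : K ≤ L) (hnorm : ∀ s ∈ N.fixingSubgroup, ∀ x ∈ K, s x ∈ K)
    (hdeg : Module.finrank F K = Module.finrank F N * p) :
    letI : Algebra N K := (IntermediateField.inclusion hNK).toRingHom.toAlgebra
    ∀ v : HeightOneSpectrum (𝓞 N), es N K v ≠ 1 → (p : 𝓞 N) ∈ v.asIdeal → ∃ w : HeightOneSpectrum (𝓞 K), TRam p v w 1 := by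
  classical
  letI iNK : Algebra N K := (IntermediateField.inclusion hNK).toRingHom.toAlgebra
  have hac : IsAlgClosed Ω := IsAlgClosure.isAlgClosed F
  have hal : Algebra.IsAlgebraic F Ω := IsAlgClosure.isAlgebraic
  have hcz : CharZero Ω := charZero_of_injective_algebraMap (FaithfulSMul.algebraMap_injective F Ω)
  have hLf : FiniteDimensional F L := hL.fin
  have hKf : FiniteDimensional F K := finDim_of_le hKL
  have hNf : FiniteDimensional F N := finDim_of_le hNK
  have hMf : FiniteDimensional F M := finDim_of_le hMN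
  have hLn : NumberField L := H16C.FR_numberField L
  obtain ⟨hst, hgal, hfr⟩ := chain_types p hp N K hNK hnorm hdeg
  intro v he hpv
  obtain ⟨t, w, ht⟩ := H35M.exists_TRam hp hfr v he hpv
  letI iKL : Algebra K L := s13_alg hKL
  letI iNL : Algebra N L := s13_alg (hNK.trans hKL)
  have t1 : IsScalarTower N K L := IsScalarTower.of_algebraMap_eq fun x => rfl
  have hNL : N ≤ L := hNK.trans hKL
  have hnormL : ∀ s ∈ N.fixingSubgroup, ∀ x ∈ L, s x ∈ L := fun s hs x hx =>
    hL.norm s (IntermediateField.fixingSubgroup_antitone hMN hs) x hx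
  have hgalL : IsGalois N L := s13_galois N L hNL hnormL
  -- the degree of L over N
  have hdegL : ∃ k : ℕ, Module.finrank N L = p ^ k := by
    obtain ⟨k, hk⟩ := hL.deg
    obtain ⟨j, hj⟩ := pext_deg p hp M N L hL hMN hNL
    have hstN : IsScalarTower F N L := IsScalarTower.of_algebraMap_eq fun x => rfl
    have h1 : Module.finrank F N * Module.finrank N L = Module.finrank F L := Module.finrank_mul_finrank F N L
    have hMN' : Module.finrank F N = Module.finrank F M * p ^ j := by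
      letI : Algebra M N := (IntermediateField.inclusion hMN).toRingHom.toAlgebra
      have h2 : IsScalarTower F M N := alg_tower M N hMN
      rw [← Module.finrank_mul_finrank F M N, hj]
    rw [hk, hMN', mul_assoc] at h1
    have hpos : 0 < Module.finrank F M := Module.finrank_pos
    have h2 : p ^ j * Module.finrank N L = p ^ k := Nat.eq_of_mul_eq_mul_left hpos h1
    obtain ⟨k', -, hk'⟩ := (Nat.dvd_prime_pow hp).1 (Dvd.intro_left _ h2)
    exact ⟨k', hk'⟩
  obtain ⟨k, hk⟩ := hdegL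
  have hwm := w.isMaximal
  obtain ⟨Q, hQ1, hQ2⟩ := Ideal.exists_maximal_ideal_liesOver_of_isIntegral (S := 𝓞 L) w.asIdeal
  have hQ0 : Q ≠ ⊥ := Ideal.ne_bot_of_liesOver_of_ne_bot w.ne_bot Q
  have hover : Q.under (𝓞 K) = w.asIdeal := hQ2.over.symm
  have hpw : (p : 𝓞 K) ∈ w.asIdeal := by
    have h1 : algebraMap (𝓞 N) (𝓞 K) (p : 𝓞 N) ∈ v.asIdeal.map (algebraMap (𝓞 N) (𝓞 K)) := Ideal.mem_map_of_mem _ hpv
    rw [ht.map, map_natCast] at h1
    exact Ideal.pow_le_self hp.ne_zero h1
  have hpQ : (p : 𝓞 L) ∈ Q := by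
    have h1 : (p : 𝓞 K) ∈ Q.under (𝓞 K) := by rw [hover]; exact hpw
    have h2 : algebraMap (𝓞 K) (𝓞 L) (p : 𝓞 K) ∈ Q := h1
    rwa [map_natCast] at h2
  have hG2 : G2 N Q := g2_types M N L hMN hNL hG Q hQ1.isPrime hpQ
  have hr := r8_main (N := N) (M := K) (L := L) p hp k hk ⟨Q, hQ1.isPrime, hQ0⟩ hpQ hG2 w hover
  have hw0 : v.asIdeal.map (algebraMap (𝓞 N) (𝓞 K)) ≠ ⊥ := by
    rw [ht.map]
    exact pow_ne_zero _ w.ne_bot
  have hwp := w.isPrime
  have hvw : w.asIdeal.LiesOver v.asIdeal := by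
    refine ⟨v.isMaximal.eq_of_le (Ideal.IsPrime.ne_top (Ideal.IsPrime.under (𝓞 N) w.asIdeal)) ?_⟩
    refine Ideal.le_comap_of_map_le ?_
    rw [ht.map]
    exact Ideal.pow_le_self hp.ne_zero
  have hidx : w.asIdeal.ramificationIdx (𝓞 N) = p := by
    rw [Ideal.IsDedekindDomain.ramificationIdx_eq_multiplicity v.asIdeal w.asIdeal hw0, ht.map]
    exact multiplicity_pow_self_of_prime w.prime p
  rw [hidx, ht.dif] at hr
  have hp1 : 0 < p - 1 := Nat.sub_pos_of_lt hp.one_lt
  have ht1 : t = 1 := by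
    have h1 : (p - 1) * (t + 1) = (p - 1) * 2 := by rw [hr, mul_comm]
    have h2 := Nat.eq_of_mul_eq_mul_left hp1 h1
    omega
  exact ⟨w, ht1 ▸ ht⟩

end g2

variable {F : Type} [Field F] [NumberField F] [IQ F] {Ω : Type} [Field Ω] [DecidableEq Ω] [Algebra F Ω] [IsAlgClosure F Ω]

omit [IQ F] [DecidableEq Ω] [IsAlgClosure F Ω] in
theorem a4_self (K : IntermediateField F Ω) [NumberField K] (v : HeightOneSpectrum (𝓞 K))
    (hv : Ram K K v.asIdeal) : False := by
  obtain ⟨W, hWp, hW⟩ := hv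
  have h1 : v.asIdeal ≤ W ^ 2 := fun x hx => hW x x hx rfl
  have hWn : W ≠ ⊥ := by
    rintro rfl
    apply v.ne_bot
    rw [eq_bot_iff]
    exact h1.trans (Ideal.pow_le_self two_ne_zero)
  have h2 : v.asIdeal = W := v.isMaximal.eq_of_le hWp.ne_top (h1.trans (Ideal.pow_le_self two_ne_zero))
  have h3 : W ≤ W ^ 2 := h2 ▸ h1
  have h4 := Ideal.pow_right_strictAnti W hWn hWp.ne_top (show 1 < 2 by norm_num)
  have h4' : W ^ 2 < W ^ 1 := h4
  rw [pow_one] at h4'
  exact lt_irrefl _ (lt_of_lt_of_le h4' h3)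

/-- The tower. -/
theorem tower_C {Om : ℂ} {mo : Ideal (𝓞 F)} {ψ : Ideal (𝓞 F) →*₀ 𝓞 F} {p : ℕ} [Fact p.Prime] (hS : SCtx p mo ψ Om)
    {V : ValuationSubring ℂ} (hV : V.valuation (p : ℂ) < 1)
    (M L : IntermediateField F Ω) (hL : PExt p M L) (hG : G2F p M L) [NumberField M] (hNT : NTP M p mo ψ V)
    (K : IntermediateField F Ω) [NumberField K] (hMK : M ≤ K) (hKL : K ≤ L) :
    LVO F V Om (PsiP K ψ) ↔ LVO F V Om (PsiP M ψ) ∧ ∀ v : HeightOneSpectrum (𝓞 M), Ram M K v.asIdeal →
      V.valuation (1 - (starRingEnd ℂ) (PsiP M ψ v.asIdeal)) = 1 := by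
  have hac : IsAlgClosed Ω := IsAlgClosure.isAlgClosed F
  have hal : Algebra.IsAlgebraic F Ω := IsAlgClosure.isAlgebraic
  have hcz : CharZero Ω := charZero_of_injective_algebraMap (FaithfulSMul.algebraMap_injective F Ω)
  have hp : p.Prime := Fact.out
  have hLf : FiniteDimensional F L := hL.fin
  have hMf : FiniteDimensional F M := finDim_of_le hL.le
  have key : ∀ (n : ℕ) (K : IntermediateField F Ω) [NumberField K], M ≤ K → K ≤ L →
      Module.finrank F K = n → (LVO F V Om (PsiP K ψ) ↔ LVO F V Om (PsiP M ψ) ∧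
        ∀ v : HeightOneSpectrum (𝓞 M), Ram M K v.asIdeal → V.valuation (1 - (starRingEnd ℂ) (PsiP M ψ v.asIdeal)) = 1) := by
    intro n
    induction n using Nat.strong_induction_on with
    | _ n ih =>
      intro K _ hMK hKL hn
      rcases eq_or_ne K M with rfl | hne
      · exact ⟨fun h => ⟨h, fun v hv => (a4_self K v hv).elim⟩, fun h => h.1⟩
      obtain ⟨N, hMN, hNK, hdeg, hnorm⟩ := chain_step p hp M K L hL hMK hKL hne
      have hKf : FiniteDimensional F K := finDim_of_le hKL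
      have hNf : FiniteDimensional F N := finDim_of_le hNK
      have hNn : NumberField N := H16C.FR_numberField N
      have hNpos : 0 < Module.finrank F N := Module.finrank_pos
      have hlt : Module.finrank F N < n := by
        rw [← hn, hdeg]
        exact lt_mul_of_one_lt_right hNpos hp.one_lt
      letI iNK : Algebra N K := (IntermediateField.inclusion hNK).toRingHom.toAlgebra
      letI iMN : Algebra M N := (IntermediateField.inclusion hMN).toRingHom.toAlgebra
      obtain ⟨hst, hgal, hfr⟩ := chain_types p hp N K hNK hnorm hdeg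
      have hstM : IsScalarTower F M N := alg_tower M N hMN
      have hLN := ih _ hlt N hMN (hNK.trans hKL) rfl
      obtain ⟨j', hj'⟩ := pext_deg p hp M N L hL hMN (hNK.trans hKL)
      have hNTN : NTP N p mo ψ V := NTP_up M N p hp j' hj' V hV hNT
      have hTR := g2_TRam hp M N K L hL hG hMN hNK hKL hnorm hdeg
      rw [stepC hS hV N K hfr hNTN hTR, hLN]
      have hrt := fun v => ram_tower M N K hMN hNK hnorm v
      constructor
      · rintro ⟨⟨h1, h2⟩, h3⟩
        refine ⟨h1, fun v hv => ?_⟩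
        rcases (hrt v).1 hv with h4 | ⟨w, hw1, hw2⟩
        · exact h2 v h4
        · obtain ⟨v', hv', -, hf⟩ := ram_down p hp M N K L hL hMN hNK hKL hnorm w hw2
          have hf' : ∃ j : ℕ, w.asIdeal.inertiaDeg (𝓞 M) = p ^ j := hf
          exact (adm_iff M N p hp V hV v w hw1 hf').2 (h3 w hw2)
      · rintro ⟨h1, h2⟩
        refine ⟨⟨h1, fun v hv => h2 v ((hrt v).2 (Or.inl hv))⟩, fun w hw => ?_⟩
        obtain ⟨v, hv, -, hf⟩ := ram_down p hp M N K L hL hMN hNK hKL hnorm w hw
        exact (adm_iff M N p hp V hV v w hv hf).1 (h2 v ((hrt v).2 (Or.inr ⟨w, hv, hw⟩)))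
  exact key _ K hMK hKL rfl

/-- Integrality in the tower. -/
theorem lvoi_tower {Om : ℂ} {mo : Ideal (𝓞 F)} {ψ : Ideal (𝓞 F) →*₀ 𝓞 F} {p : ℕ} [Fact p.Prime] (hS : SCtx p mo ψ Om)
    {V : ValuationSubring ℂ} (hV : V.valuation (p : ℂ) < 1)
    (M L : IntermediateField F Ω) (hL : PExt p M L) [NumberField M] (hNT : NTP M p mo ψ V)
    (K : IntermediateField F Ω) [NumberField K] (hMK : M ≤ K) (hKL : K ≤ L) : LVOi F V Om (PsiP K ψ) := by
  have hp : p.Prime := Fact.out
  have hcz : CharZero Ω := charZero_of_injective_algebraMap (FaithfulSMul.algebraMap_injective F Ω)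
  have hLf : FiniteDimensional F L := hL.fin
  have hMf : FiniteDimensional F M := finDim_of_le hL.le
  letI iMK : Algebra M K := (IntermediateField.inclusion hMK).toRingHom.toAlgebra
  have hstM : IsScalarTower F M K := alg_tower M K hMK
  obtain ⟨j', hj'⟩ := pext_deg p hp M K L hL hMK hKL
  exact lvoi_C hS hV K (NTP_up M K p hp j' hj' V hV hNT)

end SSU
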