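import Mathlib
import Pool.Agent.Lib.SSU.A4
import Pool.Agent.Lib.H35M.SZ1
import Pool.Agent.Lib.H35M.SN1B
import Pool.Agent.Lib.SSG.S.A4
import Pool.Agent.Lib.H16S.S1
import Pool.Agent.Lib.H13R.H1

/-! # SSU, A5: the analytic half of (A'): p inert in F, E(M)[p] = 0, trivial second ramification groups -/

open NumberField IsDedekindDomain WeierstrassCurve

namespace SSU

open H55N H55P SSR
open H35M (LVO LVOi NoTor)
open H55K.TQ (BaseH PrimeH base_of)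
open H13R (NoRel)
open H35P (WAB Ker tt)
open H55K (Dta Tor)

variable {F : Type} [Field F] [NumberField F] [IQ F]

/-- The context from the hypotheses. -/
theorem sctx_of {W : WeierstrassCurve ℤ} {Om : ℂ} {m : Ideal (𝓞 F)} {ψ : Ideal (𝓞 F) →*₀ 𝓞 F} {p : ℕ} [Fact p.Prime]
    (hH : BaseH F (W⁄(𝓞 F)) Om m ψ) (hp : PrimeH F (W⁄(𝓞 F)) p) (hin : (Ideal.span {(p : 𝓞 F)}).IsPrime) : SCtx p m ψ Om := by
  classical
  have hp0 : ((p : ℕ) : 𝓞 F) ≠ 0 := Nat.cast_ne_zero.2 hp.prime.ne_zero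
  have hpr : Prime ((p : ℕ) : 𝓞 F) := (Ideal.span_singleton_prime hp0).1 hin
  obtain ⟨A, B, j, act, hA, hB, d⟩ := SSG.exists_dtaAB (p := p) hH hp
  exact ⟨hp.five, hH.data.hecke, (base_of hH hp).cop.of_mul_left_right, SSG.S.psi_p hH hp hin, hin,
    A, B, AlgebraicClosure F, inferInstance, inferInstance, inferInstance, inferInstance, j, act, d, H16S.s1 hH hp hpr hA hB d⟩

/-- The auxiliary ideal from the absence of p-torsion over M, p inert. -/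
theorem ntp_inert {Ω : Type} [Field Ω] [DecidableEq Ω] [Algebra F Ω] [IsAlgClosure F Ω] {A B : F} {Om : ℂ} {j : Ω →+* ℂ}
    {act : 𝓞 F →+* AddMonoid.End (Pt (WAB A B) Ω)} {mo : Ideal (𝓞 F)} {ψ : Ideal (𝓞 F) →*₀ 𝓞 F} {p : ℕ}
    (d : Dta A B Om j act mo ψ p) (hin : (Ideal.span {(p : 𝓞 F)}).IsPrime) {V : ValuationSubring ℂ} (hV : V.valuation (p : ℂ) < 1)
    (M : IntermediateField F Ω) [NumberField M]
    (hT : ∀ T : Pt (WAB A B) Ω, p • T = 0 → (∀ s ∈ M.fixingSubgroup, ac (WAB A B) s T = T) → T = 0) : NTP M p mo ψ V := by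
  classical
  by_contra hN
  have hp := d.prime
  have hp0 : ((p : ℕ) : 𝓞 F) ≠ 0 := Nat.cast_ne_zero.2 hp.ne_zero
  have hpr : Prime ((p : ℕ) : 𝓞 F) := (Ideal.span_singleton_prime hp0).1 hin
  have he : eF F ((p : ℕ) : 𝓞 F) = (p : ℂ) := map_natCast _ _
  have hV' : V.valuation (eF F ((p : ℕ) : 𝓞 F)) < 1 := by rw [he]; exact hV
  have hyp : ∀ a : Ideal (𝓞 M), IsCoprime a (Ideal.span {(p : 𝓞 M)}) → IsCoprime a (mK M mo) →
      ((p : ℕ) : 𝓞 F) ∣ 1 - ψ (Ideal.relNorm (𝓞 F) a) := by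
    intro a h1 h2
    have e : (starRingEnd ℂ) (eF F (1 - ψ (Ideal.relNorm (𝓞 F) a))) = 1 - PsiP M ψ a := by
      rw [map_sub, map_sub, map_one, map_one, PsiP_apply]
    have h3 : V.valuation (1 - PsiP M ψ a) ≤ 1 := by
      rw [← e]
      exact H41D.val_eFc V _
    have h4 : V.valuation ((starRingEnd ℂ) (eF F (1 - ψ (Ideal.relNorm (𝓞 F) a)))) < 1 := by
      rw [e]
      exact lt_of_le_of_ne h3 fun h5 => hN ⟨a, h1, h2, h5⟩
    rw [inert_el V hp hin hV] at h4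
    exact (H41D.val_lt_iff V hpr hV' _).1 h4
  obtain ⟨T₀, hT₀, -, hz, -⟩ := d.cma.gen ((p : ℕ) : 𝓞 F) hp0
  have h1 := H35M.rat_of_triv d hpr dvd_rfl M hyp T₀ hT₀
  have h2 : p • T₀ = 0 := by
    have h3 : act ((p : ℕ) : 𝓞 F) T₀ = 0 := hT₀
    rwa [map_natCast, AddMonoid.End.natCast_apply] at h3
  have h3 := hT T₀ h2 h1
  have h4 : ((p : ℕ) : 𝓞 F) ∣ 1 := (hz 1).1 (by rw [h3, map_zero])
  exact hpr.not_unit (isUnit_of_dvd_one h4)

variable {W : WeierstrassCurve ℤ} {Om : ℂ} {m : Ideal (𝓞 F)} {ψ : Ideal (𝓞 F) →*₀ 𝓞 F} {p : ℕ}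

theorem ntp_C {W₀ : WeierstrassCurve (𝓞 F)} (hH : BaseH F W₀ Om m ψ) (hp : PrimeH F W₀ p) (hin : (Ideal.span {(p : 𝓞 F)}).IsPrime)
    {V : ValuationSubring ℂ} (hV : V.valuation (p : ℂ) < 1)
    (M : IntermediateField F (AlgebraicClosure F)) [NumberField M] (hT : NoTor p W₀ M) : NTP M p m ψ V := by
  classical
  obtain ⟨A, B, j, act, hA, hB, d⟩ := SSG.exists_dtaAB (p := p) hH hp
  obtain ⟨Θ, hΘ⟩ := SSG.short_iso W₀ hA hB hH.data.ell (Ω := AlgebraicClosure F)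
  refine ntp_inert d hin hV M fun T hT0 hTf => ?_
  have h1 : Θ.symm T = 0 := by
    refine hT _ ?_ fun s hs => ?_
    · rw [← map_nsmul, hT0, map_zero]
    · apply Θ.injective
      have h2 := hΘ s (Θ.symm T)
      rw [Θ.apply_symm_apply, hTf s hs] at h2
      rw [Θ.apply_symm_apply]
      exact h2
  rw [← Θ.apply_symm_apply T, h1, map_zero]

/-- The condition at a prime of M. -/
theorem cnd_C (hH : BaseH F (W⁄(𝓞 F)) Om m ψ) (hp : PrimeH F (W⁄(𝓞 F)) p) (hin : (Ideal.span {(p : 𝓞 F)}).IsPrime)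
    {V : ValuationSubring ℂ} (hV : V.valuation (p : ℂ) < 1) (M : IntermediateField F (AlgebraicClosure F)) [NumberField M]
    (v : HeightOneSpectrum (𝓞 M)) :
    V.valuation (1 - (starRingEnd ℂ) (PsiP M ψ v.asIdeal)) = 1 ↔
      (algebraMap (𝓞 F) (𝓞 M) (W⁄(𝓞 F)).Δ ∉ v.asIdeal → ¬ p ∣ Nat.card ((W⁄(𝓞 F))⁄(𝓞 M ⧸ v.asIdeal)).toAffine.Point) := by
  rw [← H13R.y10_locR hH hp.prime v]
  have e2 : 1 - (starRingEnd ℂ) (PsiP M ψ v.asIdeal) = eF F (1 - ψ (Ideal.relNorm (𝓞 F) v.asIdeal)) := by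
    rw [PsiP_apply, Complex.conj_conj, map_sub, map_one]
  rw [e2]
  have h1 := H35M.sz1_iff (F := F) hp.prime hV (1 - ψ (Ideal.relNorm (𝓞 F) v.asIdeal))
  rw [inert_el V hp.prime hin hV, and_self_iff] at h1
  exact h1.symm

section main

variable (hH : BaseH F (W⁄(𝓞 F)) Om m ψ) (hp : PrimeH F (W⁄(𝓞 F)) p) (hin : (Ideal.span {(p : 𝓞 F)}).IsPrime)
  {M L K : IntermediateField F (AlgebraicClosure F)} [NumberField M] [NumberField K] (hL : PExt p M L) (hMK : M ≤ K) (hKL : K ≤ L)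
  (hT : NoTor p (W⁄(𝓞 F)) M) {V : ValuationSubring ℂ} (hV : V.valuation (p : ℂ) < 1)

include hH hp hin hL hMK hKL hT hV

/-- Integrality at every place above p. -/
theorem intC : LVOi F V Om (PsiP K ψ) := by
  have : Fact p.Prime := ⟨hp.prime⟩
  classical
  exact lvoi_tower (sctx_of hH hp hin) hV M L hL (ntp_C hH hp hin hV M hT) K hMK hKL

/-- The criterion at a place above p. -/
theorem critC (hG : G2F p M L) : LVO F V Om (PsiP K ψ) ↔ LVO F V Om (PsiP M ψ) ∧ NoRel p (W⁄(𝓞 F)) M K := by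
  have : Fact p.Prime := ⟨hp.prime⟩
  classical
  rw [tower_C (sctx_of hH hp hin) hV M L hL hG (ntp_C hH hp hin hV M hT) K hMK hKL]
  refine and_congr_right fun _ => ?_
  unfold NoRel
  refine forall_congr' fun v => ?_
  rw [cnd_C hH hp hin hV M v]

end main

end SSU
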