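import Mathlib
import Pool.Agent.Lib.SSU.A5
import Pool.Agent.Lib.H35U.MainB
import Pool.Agent.Lib.SSA.D3

/-! # SSU: THE RELATIVE THEOREM FOR p INERT IN F AND TRIVIAL SECOND RAMIFICATION GROUPS ABOVE p -/

open NumberField IsDedekindDomain WeierstrassCurve

namespace SSU

open H55P (IQ embF eF LF Per IsHecke Pt ac Inert Dec Nm UnitP UnrP PExt PsiP)
open H55K H55K.TQ
open H13R (BadM NoRel LUnitG)
open H35M (LVO LVOi NoTor)
open H35U (NT nt_up nt_of selB_iff bsdB_iff lunit_iffO int_ofO non_ofO)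

/-- FM and FK are the fields generated by F and M, F and K in the algebraic closure of F. FM is contained in FK, FK is contained in a Galois
extension L of FM of degree a power of p, p is inert in F and the second ramification groups of L over FM at the primes above p are trivial,
and W has bad reduction at all primes of FM which divide the discriminant of W. -/
structure TowerC (F : Type) [Field F] [NumberField F] (p : ℕ) (W : WeierstrassCurve ℤ) (M K : Type) [Field M] [NumberField M] [Field K]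
    [NumberField K] (ιM : M →ₐ[ℚ] AlgebraicClosure F) (ιK : K →ₐ[ℚ] AlgebraicClosure F) : Prop where
  inert : (Ideal.span {(p : 𝓞 F)}).IsPrime
  sub : KG F M ιM ≤ KG F K ιK
  ext : ∃ (L : IntermediateField F (AlgebraicClosure F)) (_ : NumberField L), PExt p (KG F M ιM) L ∧ G2F p (KG F M ιM) L ∧ KG F K ιK ≤ L
  bad : BadM (W⁄(𝓞 F)) (KG F M ιM)

/-- The conclusions over K and M. NoRel: no prime v of FM, not dividing the discriminant of W, with p | #W(k_v), is ramified in FK. NT: no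
point of order p over M. -/
structure OverC (F : Type) [Field F] [NumberField F] (p : ℕ) (W : WeierstrassCurve ℤ) (M K : Type) [Field M] [NumberField M] [Field K]
    [NumberField K] (ιM : M →ₐ[ℚ] AlgebraicClosure F) (ιK : K →ₐ[ℚ] AlgebraicClosure F) : Prop where
  up : H55P.SelTriv (W⁄M) p → NoRel p (W⁄(𝓞 F)) (KG F M ιM) (KG F K ιK) → H55P.SelTriv (W⁄K) p
  dn : H55P.SelTriv (W⁄K) p → H55P.SelTriv (W⁄M) p
  bsd : BSDPG p W K ↔ BSDPG p W M ∧ NoRel p (W⁄(𝓞 F)) (KG F M ιM) (KG F K ιK)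
  int : NT p W M → AnIntG p W K
  lval : NT p W M → (LUnitG p W K ↔ LUnitG p W M ∧ NoRel p (W⁄(𝓞 F)) (KG F M ιM) (KG F K ιK))
  annon : NT p W M → ¬ NoRel p (W⁄(𝓞 F)) (KG F M ιM) (KG F K ιK) → AnNonG p W K
  nt : UnrP p (KG F M ιM) ∨ H55P.SelTriv (W⁄M) p → NT p W M

variable {F : Type} [Field F] [NumberField F] [IQ F] {W : WeierstrassCurve ℤ} {Om : ℂ}
    {m : Ideal (𝓞 F)} {ψ : Ideal (𝓞 F) →*₀ 𝓞 F} {p : ℕ}

/-- THE RELATIVE THEOREM, p inert. -/
theorem main_C (hH : BaseH F (W⁄(𝓞 F)) Om m ψ) (hp : PrimeH F (W⁄(𝓞 F)) p) (M K : Type) [Field M] [NumberField M]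
    [Field K] [NumberField K] (ιM : M →ₐ[ℚ] AlgebraicClosure F) (ιK : K →ₐ[ℚ] AlgebraicClosure F)
    (hT : TowerC F p W M K ιM ιK) : OverC F p W M K ιM ιK := by
  classical
  obtain ⟨hin, hMK, ⟨L, hLn, hL, hG, hKL⟩, hB⟩ := hT
  have hp2 : p ≠ 2 := by
    have := hp.five
    omega
  have hRM : LRel W ψ M (KG F M ιM) := H13R.lrelM hH M ιM hB
  have hRK : LRel W ψ K (KG F K ιK) := H13R.lrelK hH hp hL hB K ιK hMK hKL
  have hTor : NT p W M → NoTor p (W⁄(𝓞 F)) (KG F M ιM) := fun h => nt_up hH hp.prime hp2 hp.unr M ιM h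
  have hIM : NT p W M → ∀ V : ValuationSubring ℂ, V.valuation (p : ℂ) < 1 → LVOi F V Om (PsiP (KG F M ιM) ψ) := fun h V hV =>
    intC hH hp hin hL le_rfl hL.le (hTor h) hV
  have hIK : NT p W M → ∀ V : ValuationSubring ℂ, V.valuation (p : ℂ) < 1 → LVOi F V Om (PsiP (KG F K ιK) ψ) := fun h V hV =>
    intC hH hp hin hL hMK hKL (hTor h) hV
  have hcr := fun (h : NT p W M) (V : ValuationSubring ℂ) (hV : V.valuation (p : ℂ) < 1) =>
    critC hH hp hin hL hMK hKL (hTor h) hV hG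
  have hlval : NT p W M → (LUnitG p W K ↔ LUnitG p W M ∧ NoRel p (W⁄(𝓞 F)) (KG F M ιM) (KG F K ιK)) := by
    intro h
    rw [lunit_iffO hH hp K ιK hRK (hIK h), lunit_iffO hH hp M ιM hRM (hIM h)]
    obtain ⟨V₀, hV₀⟩ := H55P.exists_above_p p hp.prime
    constructor
    · intro h1
      exact ⟨fun V hV => ((hcr h V hV).1 (h1 V hV)).1, ((hcr h V₀ hV₀).1 (h1 V₀ hV₀)).2⟩
    · rintro ⟨h1, h2⟩ V hV
      exact (hcr h V hV).2 ⟨h1 V hV, h2⟩
  have hup : H55P.SelTriv (W⁄M) p → NoRel p (W⁄(𝓞 F)) (KG F M ιM) (KG F K ιK) → H55P.SelTriv (W⁄K) p := fun h hN =>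
    (selB_iff hH hp K ιK).2 (SSA.selA hH hp hin ⟨W, rfl⟩ hB hL hG hMK hKL hN ((selB_iff hH hp M ιM).1 h)).1
  have hdn : H55P.SelTriv (W⁄K) p → H55P.SelTriv (W⁄M) p := fun h =>
    (selB_iff hH hp M ιM).2 (H19B.sel_downB hH hp hL hMK hKL ((selB_iff hH hp K ιK).1 h))
  refine ⟨hup, hdn, ?_, fun h => int_ofO hH hp K ιK hRK (hIK h), hlval, fun h hN => ?_, nt_of hH hp M ιM⟩
  · rw [bsdB_iff hH hp K ιK, bsdB_iff hH hp M ιM]
    constructor
    · rintro ⟨h1, h2⟩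
      have h3 := hdn h1
      obtain ⟨h4, h5⟩ := (hlval (nt_of hH hp M ιM (Or.inr h3))).1 h2
      exact ⟨⟨h3, h4⟩, h5⟩
    · rintro ⟨⟨h1, h2⟩, h3⟩
      exact ⟨hup h1 h3, (hlval (nt_of hH hp M ιM (Or.inr h1))).2 ⟨h2, h3⟩⟩
  · exact non_ofO hH hp K ιK hRK (hIK h) fun V hV h1 => hN ((hcr h V hV).1 h1.1).2

end SSU
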