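import Mathlib
import Pool.Agent.Lib.SSU.MainC
import Pool.Agent.Lib.H35U.IsoB

/-! # SSU: the relative theorem (p inert) for isogenous curves -/

open NumberField IsDedekindDomain WeierstrassCurve

namespace SSU

open H55P (IQ embF eF LF Per IsHecke Pt ac Inert Dec Nm UnitP UnrP PExt)
open H55K H55K.TQ
open H13R (BadM NoRel LUnitG i1_bad i1_norel i1_lfun i1_same i1_lunit i1_sel)
open H28I (TW Same tw_prime iso6_symm selnon_iso same_int same_non sha_iso pts_iso a0_disc)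
open H35U (NT nt_same selB_rest bsdB_iff)

variable {F : Type} [Field F] [NumberField F] [IQ F] {W W' : WeierstrassCurve ℤ} {Om : ℂ} {m : Ideal (𝓞 F)}
    {ψ : Ideal (𝓞 F) →*₀ 𝓞 F} {kap : ℤ} {e t u lam : ℚ} {p : ℕ}

/-- THE RELATIVE THEOREM (p inert) for isogenous curves. -/
theorem relC_iso (h : TW F W W' Om m ψ kap e t u lam) (hp' : PrimeH F (W'⁄(𝓞 F)) p)
    (M K : Type) [Field M] [NumberField M] [Field K] [NumberField K] (ιM : M →ₐ[ℚ] AlgebraicClosure F)
    (ιK : K →ₐ[ℚ] AlgebraicClosure F) (hT : TowerC F p W' M K ιM ιK) : OverC F p W' M K ιM ιK := by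
  classical
  have hp := (tw_prime h).1 hp'
  have hT' : TowerC F p W M K ιM ιK := ⟨hT.inert, hT.sub, hT.ext, (i1_bad h _).1 hT.bad⟩
  have hO := main_C h.base hp M K ιM ιK hT'
  obtain ⟨hin, hMK, ⟨L, hLn, hL, hG, hKL⟩, hB⟩ := hT'
  have hSM := i1_same h hp M (i1_lfun h M ιM (H13R.bad_of h.base hB))
  have hSK := i1_same h hp K (i1_lfun h K ιK fun w hw => H13R.bad_KR h.base hp hL hMK hKL hB w hw)
  have hbsd : ∀ (X : Type) [Field X] [NumberField X] (ι : X →ₐ[ℚ] AlgebraicClosure F) (_ : Same p W W' X),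
      BSDPG p W' X ↔ BSDPG p W X := by
    intro X _ _ ι hS
    rw [bsdB_iff h.base hp X ι, ← i1_sel hp.prime hp.five hS, ← i1_lunit hS]
    constructor
    · rintro ⟨⟨h1, -, -, h2⟩, h3⟩
      exact ⟨h1, (H13R.an_iff hp.prime h2).1 h3⟩
    · rintro ⟨h1, h2⟩
      obtain ⟨-, r1, r2, r3⟩ := selB_rest h.base hp X ι ((i1_sel hp.prime hp.five hS).1 h1)
      obtain ⟨q1, q2⟩ := pts_iso hp.prime hp.five (a0_disc hS.disc' X) hS.iso r2 r3
      exact ⟨⟨h1, sha_iso hp.prime hp.five hS.iso r1, q1, q2⟩, (H13R.an_iff hp.prime q2).2 h2⟩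
  refine ⟨?_, ?_, ?_, fun hT => ?_, fun hT => ?_, fun hT hN => ?_, fun hT => ?_⟩
  · rw [i1_norel h, i1_sel hp.prime hp.five hSK, i1_sel hp.prime hp.five hSM]
    exact hO.up
  · rw [i1_sel hp.prime hp.five hSK, i1_sel hp.prime hp.five hSM]
    exact hO.dn
  · rw [i1_norel h, hbsd K ιK hSK, hbsd M ιM hSM]
    exact hO.bsd
  · exact same_int hSK (hO.int ((nt_same hp.prime hp.five hSM).1 hT))
  · rw [i1_norel h, i1_lunit hSK, i1_lunit hSM]
    exact hO.lval ((nt_same hp.prime hp.five hSM).1 hT)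
  · rw [i1_norel h] at hN
    exact same_non hSK (hO.annon ((nt_same hp.prime hp.five hSM).1 hT) hN)
  · rw [i1_sel hp.prime hp.five hSM] at hT
    exact (nt_same hp.prime hp.five hSM).2 (hO.nt hT)

end SSU
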