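import Mathlib
import Pool.Agent.Lib.SSU.G2D
import Pool.Agent.Lib.SSR.R10
import Pool.Agent.Lib.H55P.SD
import Pool.Agent.Lib.H55P.S13
import Pool.Agent.Lib.H55P.TD

/-! # SSU, A6: extensions with trivial second ramification groups: elementary abelian inertia groups -/

open NumberField IsDedekindDomain

namespace SSU

open H55P SSR

variable {F : Type} [Field F] [NumberField F] {Ω : Type} [Field Ω] [Algebra F Ω] [IsAlgClosure F Ω]

/-- From types to elements. -/
theorem g2f_of_types {p : ℕ} (M L : IntermediateField F Ω) [NumberField M] [NumberField L] (hML : M ≤ L)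
    (hst : ∀ s ∈ M.fixingSubgroup, ∀ x ∈ L, s x ∈ L)
    (h : letI : Algebra M L := s13_alg hML
      ∀ Q : Ideal (𝓞 L), Q.IsPrime → (p : 𝓞 L) ∈ Q → G2 M Q) : G2F p M L := by
  letI : Algebra M L := s13_alg hML
  have hac : IsAlgClosed Ω := IsAlgClosure.isAlgClosed F
  have halg : Algebra.IsAlgebraic F Ω := IsAlgClosure.isAlgebraic
  have hcz : CharZero Ω := charZero_of_injective_algebraMap (FaithfulSMul.algebraMap_injective F Ω)
  have hLf : FiniteDimensional F L := Module.Finite.of_restrictScalars_finite ℚ F L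
  have hgal : IsGalois M L := s13_galois M L hML hst
  have hsc : IsScalarTower M L Ω := IsScalarTower.of_algebraMap_eq fun x => rfl
  intro Q hQ hp s hs hact x hx
  let σ : Ω ≃ₐ[M] Ω := AlgEquiv.ofRingEquiv (f := (s : Ω ≃+* Ω)) fun y =>
    (IntermediateField.mem_fixingSubgroup_iff _ s).1 hs _ y.2
  have hσ : ∀ y : L, ((σ.restrictNormal L y : L) : Ω) = s (y : Ω) := fun y => σ.restrictNormal_commutes L y
  have h1 : σ.restrictNormal L = 1 := by
    refine h Q hQ hp _ fun y => ?_
    exact hact y (σ.restrictNormal L • y) (hσ (y : L)).symm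
  have h2 := hσ ⟨x, hx⟩
  rw [h1] at h2
  exact h2.symm

/-- L/M is Galois and abelian of exponent p and p is unramified in M. -/
theorem g2f_elem {p : ℕ} (hp : p.Prime) (h3 : 3 ≤ p) (M L : IntermediateField F Ω) [NumberField M] [NumberField L] (hML : M ≤ L)
    (hst : ∀ s ∈ M.fixingSubgroup, ∀ x ∈ L, s x ∈ L)
    (hab : ∀ s ∈ M.fixingSubgroup, ∀ t ∈ M.fixingSubgroup, ∀ x ∈ L, s (t x) = t (s x))
    (hexp : ∀ s ∈ M.fixingSubgroup, ∀ x ∈ L, (s ^ p) x = x) (hU : UnrP p M) : G2F p M L := by
  refine g2f_of_types M L hML hst ?_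
  letI : Algebra M L := s13_alg hML
  have hac : IsAlgClosed Ω := IsAlgClosure.isAlgClosed F
  have halg : Algebra.IsAlgebraic F Ω := IsAlgClosure.isAlgebraic
  have halgM : Algebra.IsAlgebraic M Ω := Algebra.IsAlgebraic.tower_top (K := F) M
  have hcz : CharZero Ω := charZero_of_injective_algebraMap (FaithfulSMul.algebraMap_injective F Ω)
  have hLf : FiniteDimensional F L := Module.Finite.of_restrictScalars_finite ℚ F L
  have hgal : IsGalois M L := s13_galois M L hML hst
  have hsc : IsScalarTower M L Ω := IsScalarTower.of_algebraMap_eq fun x => rfl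
  have hnorm : Normal M Ω := normal_iff.2 fun x =>
    ⟨(Algebra.IsAlgebraic.isAlgebraic x).isIntegral, IsAlgClosed.splits _⟩
  have hmem : ∀ s : Ω ≃ₐ[M] Ω, s.restrictScalars F ∈ M.fixingSubgroup := fun s => by
    rw [IntermediateField.mem_fixingSubgroup_iff]
    intro x hx
    exact s.commutes (⟨x, hx⟩ : M)
  have hl : ∀ (s : L ≃ₐ[M] L) (x : L), (s.liftNormal Ω) (x : Ω) = ((s x : L) : Ω) := fun s x => s.liftNormal_commutes Ω x
  intro Q hQ hpQ
  have hQ0 : Q ≠ ⊥ := by
    rintro rfl
    rw [Ideal.mem_bot] at hpQ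
    exact hp.ne_zero (by exact_mod_cast hpQ)
  refine r10_elem p hp h3 ?_ ?_ ⟨Q, hQ, hQ0⟩ hpQ ?_
  · intro a b
    refine AlgEquiv.ext fun x => Subtype.ext ?_
    have h1 := hab _ (hmem (a.liftNormal Ω)) _ (hmem (b.liftNormal Ω)) (x : Ω) x.2
    have h2 : (a.liftNormal Ω) ((b.liftNormal Ω) (x : Ω)) = (b.liftNormal Ω) ((a.liftNormal Ω) (x : Ω)) := h1
    rw [hl, hl, hl, hl] at h2
    exact h2
  · intro a
    refine AlgEquiv.ext fun x => Subtype.ext ?_
    have h1 := hexp _ (hmem (a.liftNormal Ω)) (x : Ω) x.2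
    have hpow : ∀ (n : ℕ) (x : L), (((a.liftNormal Ω).restrictScalars F) ^ n) (x : Ω) = (((a ^ n) x : L) : Ω) := by
      intro n
      induction n with
      | zero => intro x; rfl
      | succ n ih =>
        intro x
        rw [pow_succ, pow_succ]
        show (((a.liftNormal Ω).restrictScalars F) ^ n) ((a.liftNormal Ω) (x : Ω)) = _
        rw [hl, ih]
        rfl
    rw [hpow] at h1
    exact h1
  · -- p is not in the square of the prime below
    intro hsq
    have hq : (Q.under (𝓞 M)).IsPrime := inferInstance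
    have hdvd : (Q.under (𝓞 M)) ^ 2 ∣ Ideal.span {((p : ℕ) : 𝓞 M)} := by
      rw [Ideal.dvd_iff_le, Ideal.span_singleton_le_iff_mem]
      exact hsq
    rw [sq] at hdvd
    have h1 := hU _ hdvd
    exact hq.ne_top (Ideal.isUnit_iff.1 h1)

end SSU
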