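import Mathlib
import Pool.Agent.Lib.SSU.A6
import Pool.Agent.Lib.H55P.CL

/-! # SSU, chunk A7: if p is unramified in L then the second ramification groups are trivial -/

open NumberField IsDedekindDomain

namespace SSU

open H55P SSR

section types

variable {N L : Type} [Field N] [NumberField N] [Field L] [NumberField L] [Algebra N L] [IsGalois N L]

theorem g2_unr {p : ℕ} (hU : UnrP p L) (hp : p.Prime) (Q : Ideal (𝓞 L)) (hQ : Q.IsPrime) (hpQ : (p : 𝓞 L) ∈ Q) : G2 N Q := by
  intro s hs
  have hne : Q ≠ ⊥ := by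
    rintro rfl
    exact Nat.cast_ne_zero.2 hp.ne_zero (Ideal.mem_bot.1 hpQ)
  have hl : Q.LiesOver (Q.under (𝓞 N)) := ⟨rfl⟩
  have hcard := cl_card (M := N) Q hne
  have he : Q.ramificationIdx (𝓞 N) = 1 := by
    by_contra hcon
    have hvne : Q.under (𝓞 N) ≠ ⊥ := fun h => hne (Ideal.eq_bot_of_comap_eq_bot (R := 𝓞 N) (I := Q) h)
    have h1 : algebraMap (𝓞 N) (𝓞 L) (p : 𝓞 N) ∈ Q ^ 2 := s13_le_sq (Q.under (𝓞 N)) hvne Q hcon (p : 𝓞 N) (by
      rw [Ideal.under_def, Ideal.mem_comap, map_natCast]
      exact hpQ)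
    rw [map_natCast] at h1
    have h2 : Q * Q ∣ Ideal.span {(p : 𝓞 L)} := by
      rw [Ideal.dvd_span_singleton, ← sq]
      exact h1
    exact hQ.ne_top (Ideal.isUnit_iff.1 (hU _ h2))
  rw [he] at hcard
  have h4 := Subgroup.card_eq_one.1 hcard
  have h5 : s ∈ Q.inertia Gal(L/N) := by
    intro x
    exact Ideal.pow_le_self (by norm_num) (hs x)
  rw [h4, Subgroup.mem_bot] at h5
  exact h5

end types

variable {F : Type} [Field F] [NumberField F] {Ω : Type} [Field Ω] [Algebra F Ω] [IsAlgClosure F Ω]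

/-- If p is unramified in L then the second ramification groups of L/M at the primes above p are trivial. -/
theorem g2f_unr {p : ℕ} (hp : p.Prime) (M L : IntermediateField F Ω) [NumberField M] [NumberField L] (hML : M ≤ L)
    (hst : ∀ s ∈ M.fixingSubgroup, ∀ x ∈ L, s x ∈ L) (hU : UnrP p L) : G2F p M L := by
  refine g2f_of_types M L hML hst ?_
  letI : Algebra M L := s13_alg hML
  have hac : IsAlgClosed Ω := IsAlgClosure.isAlgClosed F
  have halg : Algebra.IsAlgebraic F Ω := IsAlgClosure.isAlgebraic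
  have hcz : CharZero Ω := charZero_of_injective_algebraMap (FaithfulSMul.algebraMap_injective F Ω)
  have hLf : FiniteDimensional F L := Module.Finite.of_restrictScalars_finite ℚ F L
  have hgal : IsGalois M L := s13_galois M L hML hst
  exact fun Q hQ hpQ => g2_unr hU hp Q hQ hpQ

end SSU
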