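import Mathlib
import Pool.Agent.Lib.SSA.D3
import Pool.Agent.Lib.H55G.I5a

/-! # SSU: the Selmer group in p-extensions with trivial second ramification groups above the inert prime p, under OkM -/

open NumberField IsDedekindDomain WeierstrassCurve

namespace SSU

open H55P (IQ embF eF LF Per IsHecke Pt ac acR Inert Dec Nm UnitP Ram RamF PExt SelG ShaG PtsG clos Below)
open H35P (WAB Ker tt GoodW IntW)
open H55K.TQ
open H13R (NoRel)
open H55G (OkM loc_alt)
open H19B (Alt)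

variable {F : Type} [Field F] [NumberField F] [IQ F] {W₀ : WeierstrassCurve (𝓞 F)} {Om : ℂ}
    {m : Ideal (𝓞 F)} {ψ : Ideal (𝓞 F) →*₀ 𝓞 F} {p : ℕ}

open Classical in
/-- THE TOWER THEOREM under OkM. -/
theorem selAO (hH : BaseH F W₀ Om m ψ) (hp : PrimeH F W₀ p) (hin : (Ideal.span {(p : 𝓞 F)}).IsPrime)
    (hZ : ∃ W : WeierstrassCurve ℤ, W₀ = W⁄(𝓞 F))
    {M L K : IntermediateField F (AlgebraicClosure F)}
    [NumberField M] [NumberField K] (hOk : OkM p W₀ M) (hL : PExt p M L) (hG : G2F p M L) (hMK : M ≤ K) (hK : K ≤ L)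
    (hN : NoRel p W₀ M K) (hS : SelG p W₀ M) : SelG p W₀ K ∧ ShaG p W₀ K ∧ PtsG p W₀ K := by
  have hLf : FiniteDimensional F L := hL.fin
  have hKf : FiniteDimensional F K := H55P.finDim_of_le hK
  have hMf : FiniteDimensional F M := H55P.finDim_of_le hL.le
  have hell : (W₀⁄F).IsElliptic := H55P.gen_ell W₀ hH.data.ell
  have hC' := H55P.clos_pext p hp.prime M K L hL hMK hK
  have h0 : ∀ T : Pt (W₀⁄F) (AlgebraicClosure F), p • T = 0 →
      (∀ s ∈ M.fixingSubgroup, ac (W₀⁄F) s T = T) → T = 0 := fun T hT hf =>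
    H19B.tors_of_sel (W₀⁄F) p hp.prime M hS T hT hf
  have hSK : H55P.SelZero (W₀⁄F) p K := SSA.sel_towerA W₀ p hp.prime M (clos M K) hC' h0
    (fun s _ t _ T hT => H55K.NB.comm_tors hH hp.prime s t T hT)
    (fun v hv => by
      have hv' := H55P.clos_ram M K L hMK hK hL.norm v hv
      by_cases hpv : (p : 𝓞 M) ∈ v.asIdeal
      · right
        intro V hV N K' hMN hNK hKL hdeg hnorm
        exact SSA.alt_w0A hH hp hin hZ hL hG v hpv V hV N K' hMN hNK (hKL.trans (H55P.clos_le M K L hK hL.norm)) hdeg hnorm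
      · by_cases hΔ : algebraMap (𝓞 F) (𝓞 M) W₀.Δ ∈ v.asIdeal
        · rcases loc_alt hH hp hC' hOk hΔ with ⟨h1, h2⟩ | h2
          · exact Or.inl ⟨h1, Or.inr h2⟩
          · exact Or.inr fun V hV N K' hMN hNK hKL _ _ => h2 V hV N K' hMN hNK hKL
        · exact Or.inl ⟨hpv, Or.inl ⟨hΔ, hN v hv' hΔ⟩⟩) hS K hMK (H55P.le_clos M K)
  exact ⟨hSK, H55P.sha_zero (W₀⁄F) p hp.prime K hSK, H55P.pts_fin (W₀⁄F) p hp.prime K hSK⟩

end SSU
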