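import Mathlib
import Pool.Agent.Lib.SSU.MainC
import Pool.Agent.Lib.H55G.F5b
import Pool.Agent.Lib.H55G.F8b
import Pool.Agent.Lib.H55G.I4c
import Pool.Agent.Lib.H35V.D
import Pool.Agent.Lib.H35V.U2
import Pool.Agent.Lib.SSU.SelO

/-! # SSU: THE RELATIVE THEOREM FOR p INERT IN F AND TRIVIAL SECOND RAMIFICATION GROUPS ABOVE p, under OkM -/

open NumberField IsDedekindDomain WeierstrassCurve

namespace SSU

open H55P (IQ embF eF LF Per IsHecke Pt ac Inert Dec Nm UnitP UnrP PExt PsiP)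
open H55K H55K.TQ
open H13R (NoRel LUnitG)
open H55G (OkM ok_up)
open H35M (LVO LVOi NoTor)
open H35U (NT nt_up nt_of selB_iff bsdB_iff)
open H35V (TowerO RelO relO_of lunit_iffO int_ofO non_ofO)

variable {F : Type} [Field F] [NumberField F] [IQ F] {W : WeierstrassCurve ℤ} {Om : ℂ}
    {m : Ideal (𝓞 F)} {ψ : Ideal (𝓞 F) →*₀ 𝓞 F} {p : ℕ}

/-- THE RELATIVE THEOREM, p inert. -/
theorem main_CO (hH : BaseH F (W⁄(𝓞 F)) Om m ψ) (hp : PrimeH F (W⁄(𝓞 F)) p) (hin : (Ideal.span {(p : 𝓞 F)}).IsPrime) (M K : Type) [Field M] [NumberField M]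
    [Field K] [NumberField K] (ιM : M →ₐ[ℚ] AlgebraicClosure F) (ιK : K →ₐ[ℚ] AlgebraicClosure F)
    (hT : TowerO F p W M K ιM ιK) : OverC F p W M K ιM ιK := by
  classical
  obtain ⟨hMK, ⟨L, hLn, hL, hG0, hKL⟩, hB⟩ := hT
  have hG := hG0 hin
  have hp2 : p ≠ 2 := by
    have := hp.five
    omega
  have hRM : RelO p W Om ψ M ιM := relO_of hH hp M ιM hB
  have hRK : RelO p W Om ψ K ιK := relO_of hH hp K ιK (ok_up hH hp hL hMK hKL hB)
  have hTor : NT p W M → NoTor p (W⁄(𝓞 F)) (KG F M ιM) := fun h => nt_up hH hp.prime hp2 hp.unr M ιM h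
  have hIM : NT p W M → ∀ V : ValuationSubring ℂ, V.valuation (p : ℂ) < 1 → LVOi F V Om (PsiP (KG F M ιM) ψ) := fun h V hV =>
    intC hH hp hin hL le_rfl hL.le (hTor h) hV
  have hIK : NT p W M → ∀ V : ValuationSubring ℂ, V.valuation (p : ℂ) < 1 → LVOi F V Om (PsiP (KG F K ιK) ψ) := fun h V hV =>
    intC hH hp hin hL hMK hKL (hTor h) hV
  have hcr := fun (h : NT p W M) (V : ValuationSubring ℂ) (hV : V.valuation (p : ℂ) < 1) =>
    critC hH hp hin hL hMK hKL (hTor h) hV hG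
  have hlval : NT p W M → (LUnitG p W K ↔ LUnitG p W M ∧ NoRel p (W⁄(𝓞 F)) (KG F M ιM) (KG F K ιK)) := by
    intro h
    rw [lunit_iffO hH hp K ιK hRK (hIK h), lunit_iffO hH hp M ιM hRM (hIM h)]
    obtain ⟨V₀, hV₀⟩ := H55P.exists_above_p p hp.prime
    constructor
    · intro h1
      exact ⟨fun V hV => ((hcr h V hV).1 (h1 V hV)).1, ((hcr h V₀ hV₀).1 (h1 V₀ hV₀)).2⟩
    · rintro ⟨h1, h2⟩ V hV
      exact (hcr h V hV).2 ⟨h1 V hV, h2⟩
  have hup : H55P.SelTriv (W⁄M) p → NoRel p (W⁄(𝓞 F)) (KG F M ιM) (KG F K ιK) → H55P.SelTriv (W⁄K) p := fun h hN =>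
    (selB_iff hH hp K ιK).2 (selAO hH hp hin ⟨W, rfl⟩ hB hL hG hMK hKL hN ((selB_iff hH hp M ιM).1 h)).1
  have hdn : H55P.SelTriv (W⁄K) p → H55P.SelTriv (W⁄M) p := fun h =>
    (selB_iff hH hp M ιM).2 (H19B.sel_downB hH hp hL hMK hKL ((selB_iff hH hp K ιK).1 h))
  refine ⟨hup, hdn, ?_, fun h => int_ofO hH hp K ιK hRK (hIK h), hlval, fun h hN => ?_, nt_of hH hp M ιM⟩
  · rw [bsdB_iff hH hp K ιK, bsdB_iff hH hp M ιM]
    constructor
    · rintro ⟨h1, h2⟩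
      have h3 := hdn h1
      obtain ⟨h4, h5⟩ := (hlval (nt_of hH hp M ιM (Or.inr h3))).1 h2
      exact ⟨⟨h3, h4⟩, h5⟩
    · rintro ⟨⟨h1, h2⟩, h3⟩
      exact ⟨hup h1 h3, (hlval (nt_of hH hp M ιM (Or.inr h1))).2 ⟨h2, h3⟩⟩
  · exact non_ofO hH hp K ιK hRK (hIK h) fun V hV h1 => hN ((hcr h V hV).1 h1.1).2

end SSU
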