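import Mathlib
import Pool.Agent.Lib.SSU.MainCO
import Pool.Agent.Lib.SSU.A7

/-! # SSU: THE RELATIVE THEOREM FOR p INERT, with the converse for Selmer groups (hypothesis hns, proved in SSN), under OkM -/

open NumberField IsDedekindDomain WeierstrassCurve

namespace SSU

open H55P (IQ embF eF LF Per IsHecke Pt ac Inert Dec Nm UnitP UnrP PExt PsiP)
open H55K H55K.TQ
open H13R (NoRel LUnitG)
open H35U (NT NonSel OverB selB_iff bsdB_iff)

variable {F : Type} [Field F] [NumberField F] [IQ F] {W : WeierstrassCurve ℤ} {Om : ℂ}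
    {m : Ideal (𝓞 F)} {ψ : Ideal (𝓞 F) →*₀ 𝓞 F} {p : ℕ}

/-- The theorem for p inert in F. -/
theorem over_inert (hH : BaseH F (W⁄(𝓞 F)) Om m ψ) (hp : PrimeH F (W⁄(𝓞 F)) p) (hin : (Ideal.span {(p : 𝓞 F)}).IsPrime)
    (hns : NonSel F W p) (M K : Type) [Field M] [NumberField M]
    [Field K] [NumberField K] (ιM : M →ₐ[ℚ] AlgebraicClosure F) (ιK : K →ₐ[ℚ] AlgebraicClosure F)
    (hT : H35V.TowerO F p W M K ιM ιK) : OverB F p W M K ιM ιK := by
  classical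
  have hO := main_CO hH hp hin M K ιM ιK hT
  obtain ⟨hMK, ⟨L, hLn, hL, -, hKL⟩, -⟩ := hT
  have hnon : ¬ NoRel p (W⁄(𝓞 F)) (KG F M ιM) (KG F K ιK) → H13Z.SelNonT (W⁄K) p := fun hN =>
    non_abs hH hp K ιK (hns _ _ _ hL hMK hKL hN)
  exact ⟨⟨fun h => ⟨hO.dn h, by
    by_contra hN
    exact H13Z.not_selTriv _ p (hnon hN) h⟩, fun h => hO.up h.1 h.2⟩, hO.bsd, hnon, hO.int, hO.lval, hO.annon, hO.nt⟩

end SSU
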